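import Mathlib

set_option autoImplicit false
open scoped Pointwise

namespace Pool.Agent.Helper4

/-- sign character of `ZMod 2` -/
def sg (a : ZMod 2) : ℝ := if a = 0 then 1 else -1

lemma sg_add (a b : ZMod 2) : sg (a + b) = sg a * sg b := by
  unfold sg
  have h : ∀ a b : ZMod 2, (a = 0 ∧ b = 0 ∧ a + b = 0) ∨ (a = 0 ∧ b ≠ 0 ∧ a + b ≠ 0) ∨
      (a ≠ 0 ∧ b = 0 ∧ a + b ≠ 0) ∨ (a ≠ 0 ∧ b ≠ 0 ∧ a + b = 0) := by decide
  rcases h a b with ⟨h1, h2, h3⟩ | ⟨h1, h2, h3⟩ | ⟨h1, h2, h3⟩ | ⟨h1, h2, h3⟩ <;>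
    simp [h1, h2, h3]

lemma sg_sq (a : ZMod 2) : sg a * sg a = 1 := by
  unfold sg; split_ifs <;> norm_num

/-- characters of `F_2^n` -/
def chi {n : ℕ} (g x : Fin n → ZMod 2) : ℝ := sg (g ⬝ᵥ x)

lemma chi_add_right {n : ℕ} (g x y : Fin n → ZMod 2) : chi g (x + y) = chi g x * chi g y := by
  unfold chi; rw [dotProduct_add, sg_add]

lemma chi_add_left {n : ℕ} (g h x : Fin n → ZMod 2) : chi (g + h) x = chi g x * chi h x := by
  unfold chi; rw [add_dotProduct, sg_add]

lemma chi_sum {n : ℕ} (x : Fin n → ZMod 2) :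
    ∑ g : Fin n → ZMod 2, chi g x = if x = 0 then (2:ℝ) ^ n else 0 := by
  split_ifs with h
  · subst h
    simp [chi, sg]
  · obtain ⟨i, hi⟩ : ∃ i, x i ≠ 0 := by
      by_contra hcon
      push Not at hcon
      exact h (funext hcon)
    let e : Fin n → ZMod 2 := Pi.single i 1
    have h1 : ∑ g : Fin n → ZMod 2, chi (g + e) x = ∑ g : Fin n → ZMod 2, chi g x :=
      Fintype.sum_equiv (Equiv.addRight e) _ _ (fun g => rfl)
    have h2 : chi e x = -1 := by
      unfold chi sg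
      rw [single_dotProduct, one_mul, if_neg hi]
    have h3 : ∑ g : Fin n → ZMod 2, chi (g + e) x
        = - ∑ g : Fin n → ZMod 2, chi g x := by
      rw [← Finset.sum_neg_distrib]
      apply Finset.sum_congr rfl
      intro g _
      rw [chi_add_left, h2]; ring
    linarith

/-- Fourier transform -/
def ft {n : ℕ} (u : (Fin n → ZMod 2) → ℝ) (g : Fin n → ZMod 2) : ℝ := ∑ x, u x * chi g x

lemma add_eq_zero_iff' {n : ℕ} (x y : Fin n → ZMod 2) : x + y = 0 ↔ y = x := by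
  constructor
  · intro h
    have h2 := congrFun h
    funext i
    have := h2 i
    simp only [Pi.add_apply, Pi.zero_apply] at this
    generalize x i = a at *
    generalize y i = b at *
    revert a b; decide
  · rintro rfl
    funext i
    simp only [Pi.add_apply, Pi.zero_apply]
    generalize y i = a
    revert a; decide

lemma parseval {n : ℕ} (u : (Fin n → ZMod 2) → ℝ) :
    ∑ g, (ft u g) ^ 2 = 2 ^ n * ∑ x, (u x) ^ 2 := by
  have h1 : ∀ g, (ft u g) ^ 2 = ∑ x, ∑ y, u x * u y * chi g (x + y) := by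
    intro g
    rw [sq, ft, Finset.sum_mul_sum]
    apply Finset.sum_congr rfl; intro x _
    apply Finset.sum_congr rfl; intro y _
    rw [chi_add_right]; ring
  simp_rw [h1]
  rw [Finset.sum_comm, Finset.mul_sum]
  apply Finset.sum_congr rfl; intro x _
  rw [Finset.sum_comm]
  have h2 : ∀ y, ∑ g, u x * u y * chi g (x + y) = if y = x then 2 ^ n * (u x) ^ 2 else 0 := by
    intro y
    rw [← Finset.mul_sum, chi_sum]
    by_cases h : y = x
    · rw [if_pos h, if_pos ((add_eq_zero_iff' x y).2 h), h]; ring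
    · rw [if_neg h, if_neg (fun hc => h ((add_eq_zero_iff' x y).1 hc)), mul_zero]
  simp_rw [h2]
  simp

lemma ft_shift {n : ℕ} (u : (Fin n → ZMod 2) → ℝ) (d g : Fin n → ZMod 2) :
    ft (fun x => u x + u (x + d)) g = (1 + chi g d) * ft u g := by
  have hdd : d + d = 0 := (add_eq_zero_iff' d d).2 rfl
  have h1 : ∑ x, u (x + d) * chi g x = ∑ x, u x * chi g (x + d) := by
    have := Equiv.sum_comp (Equiv.addRight d) (fun x => u x * chi g (x + d))
    rw [← this]
    apply Finset.sum_congr rfl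
    intro x _
    simp only [Equiv.coe_addRight]
    rw [add_assoc, hdd, add_zero]
  unfold ft
  simp_rw [add_mul]
  rw [Finset.sum_add_distrib, h1]
  simp_rw [chi_add_right]
  rw [one_mul, Finset.mul_sum]
  congr 1
  apply Finset.sum_congr rfl
  intro x _
  ring

/-- Fourier weight killed by `d`. -/
lemma weight_le {n : ℕ} (u : (Fin n → ZMod 2) → ℝ) (d : Fin n → ZMod 2)
    (B : ℝ) (h : ∀ x, (u x + u (x + d)) ^ 2 ≤ B) :
    4 * ∑ g ∈ Finset.univ.filter (fun g : Fin n → ZMod 2 => g ⬝ᵥ d = 0), (ft u g) ^ 2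
      ≤ B * 4 ^ n := by
  have h1 := parseval (fun x => u x + u (x + d))
  simp_rw [ft_shift] at h1
  have h2 : 4 * ∑ g ∈ Finset.univ.filter (fun g : Fin n → ZMod 2 => g ⬝ᵥ d = 0), (ft u g) ^ 2
      ≤ ∑ g, ((1 + chi g d) * ft u g) ^ 2 := by
    rw [Finset.mul_sum]
    calc ∑ g ∈ Finset.univ.filter (fun g : Fin n → ZMod 2 => g ⬝ᵥ d = 0), 4 * (ft u g) ^ 2
        = ∑ g ∈ Finset.univ.filter (fun g : Fin n → ZMod 2 => g ⬝ᵥ d = 0),
          ((1 + chi g d) * ft u g) ^ 2 := by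
          apply Finset.sum_congr rfl
          intro g hg
          have hg' : g ⬝ᵥ d = 0 := (Finset.mem_filter.1 hg).2
          have : chi g d = 1 := by unfold chi sg; rw [if_pos hg']
          rw [this]; ring
      _ ≤ ∑ g, ((1 + chi g d) * ft u g) ^ 2 := by
          apply Finset.sum_le_sum_of_subset_of_nonneg (Finset.filter_subset _ _)
          intro g _ _
          positivity
  have h3 : ∑ x, (u x + u (x + d)) ^ 2 ≤ ∑ x : Fin n → ZMod 2, B :=
    Finset.sum_le_sum (fun x _ => h x)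
  have h4 : ∑ x : Fin n → ZMod 2, B = 2 ^ n * B := by
    simp
  rw [h4] at h3
  calc _ ≤ _ := h2
    _ = 2 ^ n * ∑ x, (u x + u (x + d)) ^ 2 := h1
    _ ≤ 2 ^ n * (2 ^ n * B) := by gcongr
    _ = B * 4 ^ n := by
      rw [show (4:ℝ) = 2 * 2 by norm_num, mul_pow]; ring

/-- If every `k`-tuple of functionals kills some `d ∈ D`, and each `d` is killed with weight at
most `δ`, then `1 ≤ |D| δ^k`. -/
lemma tuple {n k : ℕ} (w : (Fin n → ZMod 2) → ℝ) (hw : ∀ g, 0 ≤ w g) (hpos : 0 < ∑ g, w g)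
    (δ : ℝ) (D : Finset (Fin n → ZMod 2))
    (h : ∀ d ∈ D, ∑ g ∈ Finset.univ.filter (fun g : Fin n → ZMod 2 => g ⬝ᵥ d = 0), w g
      ≤ δ * ∑ g, w g)
    (hit : ∀ g : Fin k → Fin n → ZMod 2, ∃ d ∈ D, ∀ i, g i ⬝ᵥ d = 0) :
    1 ≤ D.card * δ ^ k := by
  classical
  have h1 : (∑ g, w g) ^ k = ∑ p : Fin k → (Fin n → ZMod 2), ∏ i, w (p i) :=
    Fintype.sum_pow w k
  have h2 : ∑ p : Fin k → (Fin n → ZMod 2), ∏ i, w (p i) ≤
      ∑ d ∈ D, ∑ p : Fin k → (Fin n → ZMod 2),
        ∏ i, (if p i ⬝ᵥ d = 0 then w (p i) else 0) := by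
    rw [Finset.sum_comm]
    apply Finset.sum_le_sum
    intro p _
    obtain ⟨d, hd, hd2⟩ := hit p
    calc ∏ i, w (p i) = ∏ i, (if p i ⬝ᵥ d = 0 then w (p i) else 0) := by
          apply Finset.prod_congr rfl
          intro i _
          rw [if_pos (hd2 i)]
      _ ≤ _ := by
          apply Finset.single_le_sum (f := fun d => ∏ i, (if p i ⬝ᵥ d = 0 then w (p i) else 0))
            _ hd
          intro d _
          apply Finset.prod_nonneg
          intro i _
          split_ifs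
          · exact hw _
          · exact le_rfl
  have h3 : ∀ d ∈ D, ∑ p : Fin k → (Fin n → ZMod 2),
        ∏ i, (if p i ⬝ᵥ d = 0 then w (p i) else 0) ≤ (δ * ∑ g, w g) ^ k := by
    intro d hd
    rw [← Fintype.sum_pow (fun g => if g ⬝ᵥ d = 0 then w g else 0) k]
    apply pow_le_pow_left₀
    · apply Finset.sum_nonneg
      intro g _
      split_ifs
      · exact hw _
      · exact le_rfl
    · rw [← Finset.sum_filter]
      exact h d hd
  have h4 : (∑ g, w g) ^ k ≤ D.card * δ ^ k * (∑ g, w g) ^ k := by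
    calc (∑ g, w g) ^ k ≤ _ := h1.le.trans h2
      _ ≤ ∑ d ∈ D, (δ * ∑ g, w g) ^ k := Finset.sum_le_sum h3
      _ = D.card * δ ^ k * (∑ g, w g) ^ k := by
        rw [Finset.sum_const, nsmul_eq_mul, mul_pow]; ring
  have h5 : 0 < (∑ g, w g) ^ k := by positivity
  by_contra hcon
  push Not at hcon
  nlinarith

end Pool.Agent.Helper4
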