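import Mathlib

set_option autoImplicit false
open scoped Pointwise

namespace Pool.Agent.Helper4

/-- A penalised form of Petridis' lemma. -/
lemma petridis {G : Type} [AddCommGroup G] [DecidableEq G] (A D : Finset G) (K : ℝ) :
    ∃ A' ⊆ A, ((A' + D).card : ℝ) - K * A'.card ≤ (A + D).card - K * A.card ∧
      ((A' + D).card : ℝ) - K * A'.card ≤ 0 ∧
      ∀ C : Finset G, C.Nonempty →
        ((A' + C + D).card : ℝ) ≤ K * (A' + C).card + ((A' + D).card - K * A'.card) := by
  classical
  obtain ⟨A', hA', hmin⟩ := Finset.exists_min_image A.powerset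
    (fun Z => ((Z + D).card : ℝ) - K * Z.card) ⟨A, Finset.mem_powerset_self A⟩
  have hsub : A' ⊆ A := Finset.mem_powerset.1 hA'
  refine ⟨A', hsub, hmin A (Finset.mem_powerset_self A), ?_, ?_⟩
  · have := hmin ∅ (Finset.empty_mem_powerset A)
    simpa using this
  · intro C hC
    induction C using Finset.induction_on with
    | empty => exact absurd hC (by simp)
    | insert c C₀ hc ih =>
      have memtr : ∀ (Z : Finset G) (x : G), x ∈ Z + {c} ↔ ∃ a ∈ Z, a + c = x := by
        intro Z x
        simp only [Finset.mem_add, Finset.mem_singleton]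
        constructor
        · rintro ⟨a, ha, b, rfl, rfl⟩; exact ⟨a, ha, rfl⟩
        · rintro ⟨a, ha, rfl⟩; exact ⟨a, ha, c, rfl, rfl⟩
      have cardtr : ∀ (Z : Finset G), (Z + {c} + D).card = (Z + D).card := by
        intro Z
        rw [add_assoc, add_comm {c} D, ← add_assoc]
        exact Finset.card_add_singleton _ _
      by_cases hC0 : C₀.Nonempty
      · have ih' := ih hC0
        set Z := A'.filter (fun a => a + c ∈ A' + C₀) with hZ
        have hZsub : Z ⊆ A' := Finset.filter_subset _ _
        have hZmin : ((A' + D).card : ℝ) - K * A'.card ≤ (Z + D).card - K * Z.card :=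
          hmin Z (Finset.mem_powerset.2 (hZsub.trans hsub))
        -- decomposition of A' + insert c C₀
        have e1 : A' + insert c C₀ = (A' + C₀) ∪ (A' + {c}) := by
          rw [Finset.insert_eq, Finset.add_union, Finset.union_comm]
        have e2 : A' + insert c C₀ + D = (A' + C₀ + D) ∪ (A' + {c} + D) := by
          rw [e1, Finset.union_add]
        have card_tr : (A' + {c} + D).card = (A' + D).card := cardtr A'
        have card_trZ : (Z + {c} + D).card = (Z + D).card := cardtr Z
        have sub1 : Z + {c} + D ⊆ (A' + C₀ + D) ∩ (A' + {c} + D) := by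
          apply Finset.subset_inter
          · apply Finset.add_subset_add_right
            intro x hx
            rw [memtr] at hx
            obtain ⟨a, ha, rfl⟩ := hx
            rw [hZ, Finset.mem_filter] at ha
            exact ha.2
          · apply Finset.add_subset_add_right
            apply Finset.add_subset_add_right
            exact hZsub
        have c1 : (A' + insert c C₀ + D).card + (Z + D).card ≤
            (A' + C₀ + D).card + (A' + D).card := by
          have h1 := Finset.card_union_add_card_inter (A' + C₀ + D) (A' + {c} + D)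
          have h2 := Finset.card_le_card sub1
          rw [e2]
          omega
        have e3 : (A' + C₀) ∩ (A' + {c}) = Z + {c} := by
          ext x
          rw [Finset.mem_inter, memtr, memtr]
          constructor
          · rintro ⟨h1, a, ha, rfl⟩
            exact ⟨a, Finset.mem_filter.2 ⟨ha, h1⟩, rfl⟩
          · rintro ⟨a, ha, rfl⟩
            have := Finset.mem_filter.1 ha
            exact ⟨this.2, a, this.1, rfl⟩
        have c2 : (A' + insert c C₀).card + Z.card = (A' + C₀).card + A'.card := by
          have h1 := Finset.card_union_add_card_inter (A' + C₀) (A' + {c})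
          rw [e3, Finset.card_add_singleton, Finset.card_add_singleton] at h1
          rw [e1]
          exact h1
        have c1' : ((A' + insert c C₀ + D).card : ℝ) + (Z + D).card ≤
            (A' + C₀ + D).card + (A' + D).card := by exact_mod_cast c1
        have c2' : ((A' + insert c C₀).card : ℝ) + Z.card = (A' + C₀).card + A'.card := by
          exact_mod_cast c2
        have c3 : ((A' + insert c C₀).card : ℝ) = (A' + C₀).card + A'.card - Z.card := by linarith
        rw [c3]
        linarith
      · rw [Finset.not_nonempty_iff_eq_empty] at hC0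
        subst hC0
        have hs : (insert c ∅ : Finset G) = {c} := rfl
        rw [hs, cardtr, Finset.card_add_singleton]
        linarith

/-- iterated sumset -/
def S {G : Type} [AddCommGroup G] [DecidableEq G] (A D : Finset G) : ℕ → Finset G
  | 0 => A
  | (j+1) => S A D j + D

lemma S_eq {G : Type} [AddCommGroup G] [DecidableEq G] (A D : Finset G) (hD : D.Nonempty) (j : ℕ) :
    ∃ C : Finset G, C.Nonempty ∧ S A D j = A + C := by
  induction j with
  | zero =>
    refine ⟨{0}, by simp, ?_⟩
    have h0 : ({0} : Finset G) = 0 := rfl
    rw [S, h0, add_zero]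
  | succ j ih =>
    obtain ⟨C, hC, h⟩ := ih
    exact ⟨C + D, hC.add hD, by rw [S, h, add_assoc]⟩

lemma S_card {G : Type} [AddCommGroup G] [DecidableEq G] (A' D : Finset G) (hD : D.Nonempty)
    (K : ℝ) (hK : 0 ≤ K) (h0 : ((A' + D).card : ℝ) - K * A'.card ≤ 0)
    (h : ∀ C : Finset G, C.Nonempty →
        ((A' + C + D).card : ℝ) ≤ K * (A' + C).card + ((A' + D).card - K * A'.card)) (j : ℕ) :
    ((S A' D j).card : ℝ) ≤ K ^ j * A'.card := by
  induction j with
  | zero => simp [S]
  | succ j ih =>
    obtain ⟨C, hC, hS⟩ := S_eq A' D hD j
    rw [S, hS]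
    rw [hS] at ih
    have := h C hC
    calc ((A' + C + D).card : ℝ) ≤ K * (A' + C).card + ((A' + D).card - K * A'.card) := this
      _ ≤ K * (A' + C).card := by linarith
      _ ≤ K * (K ^ j * A'.card) := by gcongr
      _ = K ^ (j+1) * A'.card := by ring

end Pool.Agent.Helper4
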