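import Mathlib
import Pool.Agent.Helper4.Petridis
import Pool.Agent.Helper4.Fourier

set_option autoImplicit false
open scoped Pointwise

namespace Pool.Agent.Helper4

variable {n : ℕ}

lemma dd (d : Fin n → ZMod 2) : d + d = 0 := (add_eq_zero_iff' d d).2 rfl

lemma xdd (x d : Fin n → ZMod 2) : x + d + d = x := by rw [add_assoc, dd, add_zero]

lemma S_step (A D : Finset (Fin n → ZMod 2)) (j : ℕ) (x d : Fin n → ZMod 2) (hx : x ∈ S A D j)
    (hd : d ∈ D) : x + d ∈ S A D (j+1) := Finset.add_mem_add hx hd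

lemma S_two (A D : Finset (Fin n → ZMod 2)) (hD : D.Nonempty) (j : ℕ) :
    S A D j ⊆ S A D (j+2) := by
  obtain ⟨d, hd⟩ := hD
  intro x hx
  have := S_step A D (j+1) _ d (S_step A D j x d hx hd) hd
  rwa [xdd] at this

lemma S_two_mul (A D : Finset (Fin n → ZMod 2)) (hD : D.Nonempty) (j i : ℕ) :
    S A D j ⊆ S A D (j+2*i) := by
  induction i with
  | zero => exact Finset.Subset.refl _
  | succ i ih => exact ih.trans (S_two A D hD _)

/-- level functions -/
noncomputable def phi (A D : Finset (Fin n → ZMod 2)) (q : ℕ) (x : Fin n → ZMod 2) : ℝ :=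
  ∑ i ∈ Finset.range (q+1), if x ∈ S A D (2*i) then 1 else 0

noncomputable def psi (A D : Finset (Fin n → ZMod 2)) (q : ℕ) (x : Fin n → ZMod 2) : ℝ :=
  ∑ i ∈ Finset.range (q+1), if x ∈ S A D (2*i+1) then 1 else 0

lemma phi_le_psi (A D : Finset (Fin n → ZMod 2)) (q : ℕ) (x d : Fin n → ZMod 2) (hd : d ∈ D) :
    phi A D q x ≤ psi A D q (x + d) := by
  unfold phi psi
  apply Finset.sum_le_sum
  intro i _
  by_cases h : x ∈ S A D (2*i)
  · rw [if_pos h, if_pos (S_step A D _ x d h hd)]
  · rw [if_neg h]; split_ifs <;> norm_num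

lemma psi_le_phi (A D : Finset (Fin n → ZMod 2)) (q : ℕ) (x d : Fin n → ZMod 2) (hd : d ∈ D) :
    psi A D q (x + d) ≤ phi A D q x + 1 := by
  have h1 : psi A D q (x + d) ≤ ∑ i ∈ Finset.range (q+1),
      (if x ∈ S A D (2*(i+1)) then (1:ℝ) else 0) := by
    unfold psi
    apply Finset.sum_le_sum
    intro i _
    by_cases h : x + d ∈ S A D (2*i+1)
    · have h2 := S_step A D _ _ d h hd
      rw [xdd, show 2*i+1+1 = 2*(i+1) by ring] at h2
      rw [if_pos h, if_pos h2]
    · rw [if_neg h]; split_ifs <;> norm_num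
  have h2 : ∑ i ∈ Finset.range (q+1), (if x ∈ S A D (2*(i+1)) then (1:ℝ) else 0) +
      (if x ∈ S A D (2*0) then (1:ℝ) else 0) =
      ∑ i ∈ Finset.range (q+1), (if x ∈ S A D (2*i) then (1:ℝ) else 0) +
      (if x ∈ S A D (2*(q+1)) then (1:ℝ) else 0) := by
    rw [← Finset.sum_range_succ' (fun i => if x ∈ S A D (2*i) then (1:ℝ) else 0) (q+1),
      Finset.sum_range_succ]
  have h3 : (0:ℝ) ≤ (if x ∈ S A D (2*0) then (1:ℝ) else 0) := by split_ifs <;> norm_num
  have h4 : (if x ∈ S A D (2*(q+1)) then (1:ℝ) else 0) ≤ 1 := by split_ifs <;> norm_num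
  unfold phi
  linarith

noncomputable def uu (A D : Finset (Fin n → ZMod 2)) (q : ℕ) (x : Fin n → ZMod 2) : ℝ :=
  phi A D q x - psi A D q x

lemma uu_sq (A D : Finset (Fin n → ZMod 2)) (q : ℕ) (x d : Fin n → ZMod 2) (hd : d ∈ D) :
    (uu A D q x + uu A D q (x + d)) ^ 2 ≤ 4 := by
  have h1 := phi_le_psi A D q x d hd
  have h2 := psi_le_phi A D q x d hd
  have h3 := phi_le_psi A D q (x+d) d hd
  have h4 := psi_le_phi A D q (x+d) d hd
  rw [xdd] at h3 h4
  unfold uu
  have h5 : (4:ℝ) = 2 ^ 2 := by norm_num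
  rw [h5]
  apply sq_le_sq' <;> linarith

lemma uu_left (A D : Finset (Fin n → ZMod 2)) (hD : D.Nonempty) (q : ℕ) (x : Fin n → ZMod 2)
    (hx : x ∈ A) (hx2 : x ∉ S A D (2*q+1)) : uu A D q x = q + 1 := by
  unfold uu phi psi
  have h1 : ∑ i ∈ Finset.range (q+1), (if x ∈ S A D (2*i) then (1:ℝ) else 0) = q + 1 := by
    rw [Finset.sum_congr rfl (g := fun _ => (1:ℝ))]
    · simp
    · intro i _
      have := S_two_mul A D hD 0 i hx
      rw [zero_add] at this
      rw [if_pos this]
  have h2 : ∑ i ∈ Finset.range (q+1), (if x ∈ S A D (2*i+1) then (1:ℝ) else 0) = 0 := by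
    apply Finset.sum_eq_zero
    intro i hi
    rw [if_neg]
    intro hcon
    apply hx2
    have hi' : i ≤ q := by have := Finset.mem_range.1 hi; omega
    have := S_two_mul A D hD (2*i+1) (q-i) hcon
    rwa [show 2*i+1+2*(q-i) = 2*q+1 by omega] at this
  rw [h1, h2, sub_zero]

lemma uu_right (A D : Finset (Fin n → ZMod 2)) (hD : D.Nonempty) (q : ℕ) (x : Fin n → ZMod 2)
    (hx : x ∈ A + D) (hx2 : x ∉ S A D (2*q)) : uu A D q x = -(q + 1) := by
  unfold uu phi psi
  have h1 : ∑ i ∈ Finset.range (q+1), (if x ∈ S A D (2*i+1) then (1:ℝ) else 0) = q + 1 := by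
    rw [Finset.sum_congr rfl (g := fun _ => (1:ℝ))]
    · simp
    · intro i _
      have := S_two_mul A D hD 1 i hx
      rw [add_comm] at this
      rw [if_pos this]
  have h2 : ∑ i ∈ Finset.range (q+1), (if x ∈ S A D (2*i) then (1:ℝ) else 0) = 0 := by
    apply Finset.sum_eq_zero
    intro i hi
    rw [if_neg]
    intro hcon
    apply hx2
    have hi' : i ≤ q := by have := Finset.mem_range.1 hi; omega
    have := S_two_mul A D hD (2*i) (q-i) hcon
    rwa [show 2*i+2*(q-i) = 2*q by omega] at this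
  rw [h1, h2, zero_sub]

/-- lower bound for the `L^2` norm of the level function -/
lemma uu_norm (A D : Finset (Fin n → ZMod 2)) (hD : D.Nonempty) (q : ℕ)
    (hdisj : Disjoint A (A + D)) :
    ((q:ℝ)+1)^2 * (4 * A.card - (S A D (2*q+1)).card - (S A D (2*q)).card) ≤
      ∑ x, (uu A D q x)^2 := by
  classical
  have hAD : A + D ⊆ S A D (2*q+1) := by
    have := S_two_mul A D hD 1 q
    rw [add_comm] at this
    exact this
  have hA0 : A ⊆ S A D (2*q) := by
    have := S_two_mul A D hD 0 q
    rw [zero_add] at this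
    exact this
  have hcardAD : A.card ≤ (A + D).card := by
    obtain ⟨d, hd⟩ := hD
    have : A + {d} ⊆ A + D := Finset.add_subset_add_left (by simpa using hd)
    have h2 := Finset.card_le_card this
    rwa [Finset.card_add_singleton] at h2
  set U := A \ S A D (2*q+1) with hU
  set W := (A + D) \ S A D (2*q) with hW
  have hUW : Disjoint U W :=
    Finset.disjoint_of_subset_left Finset.sdiff_subset
      (Finset.disjoint_of_subset_right Finset.sdiff_subset hdisj)
  have cU : 2 * A.card ≤ U.card + (S A D (2*q+1)).card := by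
    have h1 : A.card = U.card + (A ∩ S A D (2*q+1)).card := by
      rw [hU]
      have := Finset.card_sdiff_add_card_inter A (S A D (2*q+1))
      omega
    have h2 : (A ∩ S A D (2*q+1)).card + (A + D).card ≤ (S A D (2*q+1)).card := by
      rw [← Finset.card_union_of_disjoint]
      · apply Finset.card_le_card
        apply Finset.union_subset Finset.inter_subset_right hAD
      · exact Finset.disjoint_of_subset_left Finset.inter_subset_left hdisj
    omega
  have cW : 2 * A.card ≤ W.card + (S A D (2*q)).card := by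
    have h1 : (A + D).card = W.card + ((A + D) ∩ S A D (2*q)).card := by
      rw [hW]
      have := Finset.card_sdiff_add_card_inter (A + D) (S A D (2*q))
      omega
    have h2 : ((A + D) ∩ S A D (2*q)).card + A.card ≤ (S A D (2*q)).card := by
      rw [← Finset.card_union_of_disjoint]
      · apply Finset.card_le_card
        apply Finset.union_subset Finset.inter_subset_right hA0
      · exact Finset.disjoint_of_subset_left Finset.inter_subset_left hdisj.symm
    omega
  have h1 : ∑ x ∈ U ∪ W, (uu A D q x)^2 ≤ ∑ x, (uu A D q x)^2 :=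
    Finset.sum_le_sum_of_subset_of_nonneg (Finset.subset_univ _) (fun x _ _ => sq_nonneg _)
  have h2 : ∑ x ∈ U ∪ W, (uu A D q x)^2 = ((q:ℝ)+1)^2 * (U.card + W.card) := by
    rw [Finset.sum_union hUW]
    have e1 : ∑ x ∈ U, (uu A D q x)^2 = U.card * ((q:ℝ)+1)^2 := by
      rw [Finset.sum_congr rfl (g := fun _ => ((q:ℝ)+1)^2)]
      · simp
      · intro x hx
        rw [hU, Finset.mem_sdiff] at hx
        rw [uu_left A D hD q x hx.1 hx.2]
    have e2 : ∑ x ∈ W, (uu A D q x)^2 = W.card * ((q:ℝ)+1)^2 := by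
      rw [Finset.sum_congr rfl (g := fun _ => ((q:ℝ)+1)^2)]
      · simp
      · intro x hx
        rw [hW, Finset.mem_sdiff] at hx
        rw [uu_right A D hD q x hx.1 hx.2]
        ring
    rw [e1, e2]; ring
  have cU' : 2 * (A.card:ℝ) ≤ U.card + (S A D (2*q+1)).card := by exact_mod_cast cU
  have cW' : 2 * (A.card:ℝ) ≤ W.card + (S A D (2*q)).card := by exact_mod_cast cW
  calc _ ≤ ((q:ℝ)+1)^2 * (U.card + W.card) := by
        apply mul_le_mul_of_nonneg_left _ (sq_nonneg _)
        linarith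
    _ ≤ _ := by rw [← h2]; exact h1

end Pool.Agent.Helper4
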