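import Mathlib

set_option autoImplicit false
open scoped Pointwise

namespace Pool.Agent.Helper4

/-- squarefree monomial -/
def mono {n : ℕ} (T : Finset (Fin n)) (x : Fin n → ZMod 2) : ZMod 2 := ∏ i ∈ T, x i

/-- the monomials of degree at most `k` -/
def monos (n k : ℕ) : Finset ((Fin n → ZMod 2) → ZMod 2) :=
  ((Finset.univ : Finset (Finset (Fin n))).filter (fun T => T.card ≤ k)).image mono

/-- polynomials of degree at most `k` -/
def P (n k : ℕ) : Submodule (ZMod 2) ((Fin n → ZMod 2) → ZMod 2) :=
  Submodule.span (ZMod 2) (monos n k : Set ((Fin n → ZMod 2) → ZMod 2))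

lemma mono_mem {n k : ℕ} (T : Finset (Fin n)) (h : T.card ≤ k) : mono T ∈ P n k := by
  apply Submodule.subset_span
  simp only [monos, Finset.coe_image, Set.mem_image]
  exact ⟨T, by simpa using h, rfl⟩

lemma P_mono {n k : ℕ} : P n k ≤ P n (k+1) := by
  apply Submodule.span_le.2
  intro f hf
  simp only [monos, Finset.coe_image, Set.mem_image] at hf
  obtain ⟨T, hT, rfl⟩ := hf
  have : T.card ≤ k := by simpa using hT
  exact mono_mem T (by omega)

lemma mul_coord {n k : ℕ} (i : Fin n) (f : (Fin n → ZMod 2) → ZMod 2) (hf : f ∈ P n k) :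
    (fun x => f x * x i) ∈ P n (k+1) := by
  have : ∀ g ∈ P n k, (fun x => g x * x i) ∈ P n (k+1) := by
    intro g hg
    induction hg using Submodule.span_induction with
    | mem g hg =>
      simp only [monos, Finset.coe_image, Set.mem_image] at hg
      obtain ⟨T, hT, rfl⟩ := hg
      have hTk : T.card ≤ k := by simpa using hT
      have : (fun x => mono T x * x i) = mono (insert i T) := by
        funext x
        unfold mono
        by_cases h : i ∈ T
        · rw [Finset.insert_eq_of_mem h, ← Finset.mul_prod_erase T _ h]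
          have hx : x i * x i = x i := by
            generalize x i = a
            revert a; decide
          calc (x i * ∏ j ∈ T.erase i, x j) * x i = (x i * x i) * ∏ j ∈ T.erase i, x j := by ring
            _ = _ := by rw [hx]
        · rw [Finset.prod_insert h, mul_comm]
      rw [this]
      apply mono_mem
      exact (Finset.card_insert_le _ _).trans (by omega)
    | zero =>
      have : (fun x : Fin n → ZMod 2 => (0 : (Fin n → ZMod 2) → ZMod 2) x * x i) = 0 := by
        funext x; simp
      rw [this]; exact Submodule.zero_mem _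
    | add g h _ _ hg hh =>
      have : (fun x : Fin n → ZMod 2 => (g + h) x * x i) =
          (fun x => g x * x i) + (fun x => h x * x i) := by
        funext x; simp [add_mul]
      rw [this]; exact Submodule.add_mem _ hg hh
    | smul a g _ hg =>
      have : (fun x : Fin n → ZMod 2 => (a • g) x * x i) = a • (fun x => g x * x i) := by
        funext x; simp [mul_assoc]
      rw [this]; exact Submodule.smul_mem _ _ hg
  exact this f hf

lemma mul_affine {n k : ℕ} (g : Fin n → ZMod 2) (f : (Fin n → ZMod 2) → ZMod 2)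
    (hf : f ∈ P n k) : (fun x => f x * (1 + g ⬝ᵥ x)) ∈ P n (k+1) := by
  have : (fun x => f x * (1 + g ⬝ᵥ x)) = f + ∑ i, g i • (fun x => f x * x i) := by
    funext x
    simp only [Pi.add_apply, Finset.sum_apply, Pi.smul_apply, smul_eq_mul, dotProduct]
    rw [mul_add, mul_one, Finset.mul_sum]
    congr 1
    apply Finset.sum_congr rfl
    intro i _
    ring
  rw [this]
  apply Submodule.add_mem _ (P_mono hf)
  apply Submodule.sum_mem
  intro i _
  exact Submodule.smul_mem _ _ (mul_coord i f hf)

lemma prod_mem {n k : ℕ} (g : Fin k → Fin n → ZMod 2) :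
    (fun x => ∏ i, (1 + g i ⬝ᵥ x)) ∈ P n k := by
  induction k with
  | zero =>
    have : (fun x : Fin n → ZMod 2 => ∏ i : Fin 0, (1 + g i ⬝ᵥ x)) = mono ∅ := by
      funext x; simp [mono]
    rw [this]
    exact mono_mem _ (by simp)
  | succ k ih =>
    have : (fun x : Fin n → ZMod 2 => ∏ i : Fin (k+1), (1 + g i ⬝ᵥ x)) =
        (fun x => (∏ i : Fin k, (1 + g i.succ ⬝ᵥ x)) * (1 + g 0 ⬝ᵥ x)) := by
      funext x; rw [Fin.prod_univ_succ, mul_comm]
    rw [this]
    exact mul_affine (g 0) _ (ih (fun i => g i.succ))

lemma prod_eval {n k : ℕ} (g : Fin k → Fin n → ZMod 2) (x : Fin n → ZMod 2) :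
    (∏ i, (1 + g i ⬝ᵥ x)) = if ∀ i, g i ⬝ᵥ x = 0 then 1 else 0 := by
  split_ifs with h
  · apply Finset.prod_eq_one
    intro i _
    rw [h i, add_zero]
  · push Not at h
    obtain ⟨i, hi⟩ := h
    apply Finset.prod_eq_zero (Finset.mem_univ i)
    generalize g i ⬝ᵥ x = a at hi
    revert a; decide

/-- A family of points separated by `k`-tuples of functionals has size at most the number of
monomials of degree at most `k`. -/
lemma card_le {n k : ℕ} (D : Finset (Fin n → ZMod 2))
    (h : ∀ d ∈ D, ∃ g : Fin k → Fin n → ZMod 2, ∀ d' ∈ D, (∀ i, g i ⬝ᵥ d' = 0) ↔ d' = d) :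
    D.card ≤ ((Finset.univ : Finset (Finset (Fin n))).filter (fun T => T.card ≤ k)).card := by
  classical
  choose! g hg using h
  let v : D → ((Fin n → ZMod 2) → ZMod 2) := fun d x => ∏ i, (1 + g d i ⬝ᵥ x)
  have hv : LinearIndependent (ZMod 2) v := by
    rw [Fintype.linearIndependent_iff]
    intro c hc d
    have := congrFun hc d.1
    simp only [Finset.sum_apply, Pi.smul_apply, smul_eq_mul, Pi.zero_apply, v] at this
    rw [Finset.sum_eq_single d] at this
    · rw [prod_eval, if_pos ((hg d.1 d.2 d.1 d.2).2 rfl), mul_one] at this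
      exact this
    · intro b _ hb
      rw [prod_eval, if_neg, mul_zero]
      intro hcon
      exact hb (Subtype.ext ((hg b.1 b.2 d.1 d.2).1 hcon).symm)
    · intro hcon
      exact absurd (Finset.mem_univ d) hcon
  have h2 := linearIndependent_le_span_aux' v hv (monos n k : Set _) (by
    rintro _ ⟨d, rfl⟩
    exact prod_mem (g d.1))
  have h3 : Fintype.card D = D.card := Fintype.card_coe D
  have h4 : Fintype.card (monos n k : Set ((Fin n → ZMod 2) → ZMod 2)) = (monos n k).card := by
    simp
  rw [h3, h4] at h2
  exact h2.trans Finset.card_image_le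

lemma count_le (n k : ℕ) (t : ℝ) (ht0 : 0 ≤ t) (ht1 : t ≤ 1) :
    (((Finset.univ : Finset (Finset (Fin n))).filter (fun T => T.card ≤ k)).card : ℝ) * t ^ k
      ≤ (1 + t) ^ n := by
  have h1 : (1 + t) ^ n = ∑ T : Finset (Fin n), t ^ T.card := by
    have := Finset.prod_one_add (f := fun _ : Fin n => t) (Finset.univ : Finset (Fin n))
    simp only [Finset.prod_const, Finset.card_univ, Fintype.card_fin, Finset.powerset_univ] at this
    exact this
  rw [h1, ← nsmul_eq_mul, ← Finset.sum_const]
  calc ∑ T ∈ (Finset.univ : Finset (Finset (Fin n))).filter (fun T => T.card ≤ k), t ^ k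
      ≤ ∑ T ∈ (Finset.univ : Finset (Finset (Fin n))).filter (fun T => T.card ≤ k), t ^ T.card := by
        apply Finset.sum_le_sum
        intro T hT
        exact pow_le_pow_of_le_one ht0 ht1 (Finset.mem_filter.1 hT).2
    _ ≤ ∑ T : Finset (Fin n), t ^ T.card := by
        apply Finset.sum_le_sum_of_subset_of_nonneg (Finset.filter_subset _ _)
        intro T _ _
        positivity

end Pool.Agent.Helper4
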