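import Mathlib
import Pool.Agent.Helper4.Level
import Pool.Agent.Helper4.Poly

set_option autoImplicit false
open scoped Pointwise

namespace Pool.Agent.Helper4

variable {n : ℕ}

/-- Common kernel of a tuple of functionals. -/
lemma exists_sub {k : ℕ} (g : Fin k → Fin n → ZMod 2) :
    ∃ V : Submodule (ZMod 2) (Fin n → ZMod 2), n ≤ Module.finrank (ZMod 2) V + k ∧
      ∀ v, v ∈ V ↔ ∀ i, g i ⬝ᵥ v = 0 := by
  let f : (Fin n → ZMod 2) →ₗ[ZMod 2] (Fin k → ZMod 2) := Matrix.mulVecLin (Matrix.of g)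
  refine ⟨LinearMap.ker f, ?_, ?_⟩
  · have h1 := LinearMap.finrank_range_add_finrank_ker f
    have h2 : Module.finrank (ZMod 2) (LinearMap.range f) ≤ k := by
      have := Submodule.finrank_le (LinearMap.range f)
      rwa [Module.finrank_fin_fun] at this
    rw [Module.finrank_fin_fun] at h1
    omega
  · intro v
    rw [LinearMap.mem_ker]
    constructor
    · intro h i
      exact congrFun h i
    · intro h
      funext i
      exact h i

/-- A minimal hitting subset, together with the size bound from the polynomial method. -/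
lemma minimal_hit {k : ℕ} (D : Finset (Fin n → ZMod 2))
    (hit : ∀ g : Fin k → Fin n → ZMod 2, ∃ d ∈ D, ∀ i, g i ⬝ᵥ d = 0) :
    ∃ D' ⊆ D, (∀ g : Fin k → Fin n → ZMod 2, ∃ d ∈ D', ∀ i, g i ⬝ᵥ d = 0) ∧
      D'.card ≤ ((Finset.univ : Finset (Finset (Fin n))).filter (fun T => T.card ≤ k)).card := by
  classical
  let F := D.powerset.filter
    (fun D' => ∀ g : Fin k → Fin n → ZMod 2, ∃ d ∈ D', ∀ i, g i ⬝ᵥ d = 0)
  have hF : F.Nonempty := ⟨D, Finset.mem_filter.2 ⟨Finset.mem_powerset_self D, hit⟩⟩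
  obtain ⟨D', hD', hmin⟩ := Finset.exists_min_image F Finset.card hF
  have h1 := Finset.mem_filter.1 hD'
  have hsub := Finset.mem_powerset.1 h1.1
  refine ⟨D', hsub, h1.2, ?_⟩
  apply card_le
  intro d hd
  by_contra hcon
  push Not at hcon
  -- then D'.erase d is still hitting
  have h2 : D'.erase d ∈ F := by
    refine Finset.mem_filter.2 ⟨Finset.mem_powerset.2 ((Finset.erase_subset _ _).trans hsub), ?_⟩
    intro g
    obtain ⟨e, he, he2⟩ := h1.2 g
    by_cases hed : e = d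
    · subst hed
      obtain ⟨d', hd', h3⟩ := hcon g
      rcases h3 with ⟨h3, h4⟩ | ⟨h3, h4⟩
      · exact ⟨d', Finset.mem_erase.2 ⟨h4, hd'⟩, h3⟩
      · subst h4
        obtain ⟨i, hi⟩ := h3
        exact absurd (he2 i) hi
    · exact ⟨e, Finset.mem_erase.2 ⟨hed, he⟩, he2⟩
  have h3 := hmin _ h2
  rw [Finset.card_erase_of_mem hd] at h3
  have : 0 < D'.card := Finset.card_pos.2 ⟨d, hd⟩
  omega

/-- From a small hitting set and a weight with small kill probability `δ` to `k ≤ e δ n`. -/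
lemma final_count {k : ℕ} (hk : 0 < k) (hkn : k < n) (D' : Finset (Fin n → ZMod 2)) (δ : ℝ)
    (hδ : 0 ≤ δ)
    (hcard : D'.card ≤ ((Finset.univ : Finset (Finset (Fin n))).filter (fun T => T.card ≤ k)).card)
    (h : 1 ≤ D'.card * δ ^ k) : (k:ℝ) ≤ Real.exp 1 * δ * n := by
  have hn : (0:ℝ) < n := by exact_mod_cast (by omega : 0 < n)
  have hk' : (0:ℝ) < k := by exact_mod_cast hk
  set t : ℝ := k / n with ht
  have ht0 : 0 < t := by positivity
  have ht1 : t ≤ 1 := by
    rw [ht, div_le_one hn]; exact_mod_cast hkn.le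
  have h1 := count_le n k t ht0.le ht1
  have h2 : (D'.card : ℝ) * t ^ k ≤ (1 + t) ^ n := by
    refine le_trans ?_ h1
    apply mul_le_mul_of_nonneg_right _ (by positivity)
    exact_mod_cast hcard
  have h3 : (1 + t) ^ n ≤ Real.exp 1 ^ k := by
    have h4 : 1 + t ≤ Real.exp t := by
      have := Real.add_one_le_exp t; linarith
    calc (1 + t) ^ n ≤ (Real.exp t) ^ n := by gcongr
      _ = Real.exp (n * t) := by rw [← Real.exp_nat_mul]
      _ = Real.exp (k * 1) := by rw [ht]; congr 1; field_simp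
      _ = Real.exp 1 ^ k := by rw [Real.exp_nat_mul]
  have h5 : t ^ k ≤ (Real.exp 1 * δ) ^ k := by
    calc t ^ k = 1 * t ^ k := by ring
      _ ≤ (D'.card * δ ^ k) * t ^ k := by gcongr
      _ = (D'.card * t ^ k) * δ ^ k := by ring
      _ ≤ (Real.exp 1 ^ k) * δ ^ k := by
        apply mul_le_mul_of_nonneg_right (h2.trans h3) (by positivity)
      _ = (Real.exp 1 * δ) ^ k := by rw [mul_pow]
  have h6 : t ≤ Real.exp 1 * δ :=
    le_of_pow_le_pow_left₀ hk.ne' (by positivity) h5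
  rw [ht, div_le_iff₀ hn] at h6
  exact h6

/-- General form: density `1/2 - ε` and parameters `κ`, `q`. -/
lemma general {k : ℕ} (A : Finset (Fin n → ZMod 2)) (ε κ : ℝ) (q : ℕ) (hκ : 0 < κ)
    (hcard : (1/2 - ε) * 2^n ≤ A.card)
    (hk : 0 < k) (hkn : k < n)
    (a c : ℝ) (ha : a = 1/2 - (2 + κ) * ε / κ) (ha0 : 0 < a)
    (hc : c = 4 - (1 + κ)^(2*q+1) - (1 + κ)^(2*q)) (hc0 : 0 < c)
    (hit : ∀ g : Fin k → Fin n → ZMod 2, ∃ d, d ∉ A + A ∧ ∀ i, g i ⬝ᵥ d = 0) :
    (k:ℝ) ≤ Real.exp 1 * (1 / ((q+1)^2 * (a * c))) * n := by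
  classical
  set D : Finset (Fin n → ZMod 2) := Finset.univ.filter (fun d => d ∉ A + A) with hD
  have hitD : ∀ g : Fin k → Fin n → ZMod 2, ∃ d ∈ D, ∀ i, g i ⬝ᵥ d = 0 := by
    intro g
    obtain ⟨d, hd, h⟩ := hit g
    exact ⟨d, by simp [hD, hd], h⟩
  have hDne : D.Nonempty := by
    obtain ⟨d, hd, _⟩ := hitD (fun _ => 0)
    exact ⟨d, hd⟩
  have hdisj0 : Disjoint A (A + D) := by
    rw [Finset.disjoint_left]
    intro x hx hx2
    obtain ⟨y, hy, d, hd, rfl⟩ := Finset.mem_add.1 hx2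
    rw [hD, Finset.mem_filter] at hd
    apply hd.2
    have : d = y + (y + d) := by rw [← add_assoc, dd, zero_add]
    rw [this]
    exact Finset.add_mem_add hy hx
  have hcardD : ((A + D).card : ℝ) + A.card ≤ 2 ^ n := by
    have h1 : (A + D).card + A.card ≤ Fintype.card (Fin n → ZMod 2) := by
      rw [add_comm, ← Finset.card_union_of_disjoint hdisj0]
      exact Finset.card_le_univ _
    have h2 : Fintype.card (Fin n → ZMod 2) = 2 ^ n := by simp
    rw [h2] at h1
    exact_mod_cast h1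
  obtain ⟨A', hA'A, hmin, hneg, hpet⟩ := petridis A D (1 + κ)
  have hcardA' : (A'.card : ℝ) ≤ (A' + D).card := by
    obtain ⟨d, hd⟩ := hDne
    have : A' + {d} ⊆ A' + D := Finset.add_subset_add_left (by simpa using hd)
    have h2 := Finset.card_le_card this
    rw [Finset.card_add_singleton] at h2
    exact_mod_cast h2
  have hA'big : a * 2 ^ n ≤ A'.card := by
    have h1 : -(κ * (A'.card : ℝ)) ≤ 2 ^ n - (2 + κ) * A.card := by linarith
    have h2 : (2 + κ) * ((1/2 - ε) * 2^n) ≤ (2 + κ) * A.card := by gcongr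
    have h3 : κ * (a * 2 ^ n) = -(2 ^ n - (2 + κ) * ((1/2 - ε) * 2^n)) := by
      rw [ha]; field_simp; ring
    have h4 : κ * (a * 2 ^ n) ≤ κ * A'.card := by linarith
    exact le_of_mul_le_mul_left h4 hκ
  have hdisj : Disjoint A' (A' + D) :=
    Finset.disjoint_of_subset_left hA'A
      (Finset.disjoint_of_subset_right (Finset.add_subset_add_right hA'A) hdisj0)
  have hgrow := S_card A' D hDne (1 + κ) (by positivity) hneg hpet
  have hnorm := uu_norm A' D hDne q hdisj
  have hnorm2 : ((q:ℝ)+1)^2 * (a * c) * 2 ^ n ≤ ∑ x, (uu A' D q x)^2 := by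
    refine le_trans ?_ hnorm
    have h1 := hgrow (2*q+1)
    have h2 := hgrow (2*q)
    have h3 : c * (a * 2 ^ n) ≤ c * A'.card := by gcongr
    have h4 : c * (A'.card : ℝ) ≤ 4 * A'.card - (S A' D (2*q+1)).card - (S A' D (2*q)).card := by
      rw [hc]; linarith
    calc ((q:ℝ)+1)^2 * (a * c) * 2 ^ n = ((q:ℝ)+1)^2 * (c * (a * 2 ^ n)) := by ring
      _ ≤ _ := by
        apply mul_le_mul_of_nonneg_left (h3.trans h4) (by positivity)
  set w : (Fin n → ZMod 2) → ℝ := fun g => (ft (uu A' D q) g) ^ 2 with hw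
  have hpars := parseval (uu A' D q)
  have hW : (((q:ℝ)+1)^2 * (a * c)) * 4 ^ n ≤ ∑ g, w g := by
    rw [hw]
    simp only
    rw [hpars]
    calc (((q:ℝ)+1)^2 * (a * c)) * 4 ^ n = 2 ^ n * (((q:ℝ)+1)^2 * (a * c) * 2 ^ n) := by
          rw [show (4:ℝ) = 2 * 2 by norm_num, mul_pow]; ring
      _ ≤ _ := by gcongr
  set E : ℝ := ((q:ℝ)+1)^2 * (a * c) with hE
  have hEpos : 0 < E := by positivity
  have hWpos : 0 < ∑ g, w g := lt_of_lt_of_le (by positivity) hW
  have hWd : ∀ d ∈ D, ∑ g ∈ Finset.univ.filter (fun g : Fin n → ZMod 2 => g ⬝ᵥ d = 0), w g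
      ≤ (1 / E) * ∑ g, w g := by
    intro d hd
    have h1 := weight_le (uu A' D q) d 4 (fun x => uu_sq A' D q x d hd)
    have h2 : ∑ g ∈ Finset.univ.filter (fun g : Fin n → ZMod 2 => g ⬝ᵥ d = 0), w g ≤ 4 ^ n := by
      rw [hw]; simp only; linarith
    refine h2.trans ?_
    rw [one_div, inv_mul_eq_div, le_div_iff₀ hEpos]
    linarith
  obtain ⟨D', hD'D, hit', hcard'⟩ := minimal_hit D hitD
  have h1 := tuple (k := k) w (fun g => by rw [hw]; positivity) hWpos (1 / E) D'
    (fun d hd => hWd d (hD'D hd)) hit'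
  exact final_count hk hkn D' (1 / E) (by positivity) hcard' h1

end Pool.Agent.Helper4
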