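import Mathlib
import Pool.Agent.Helper4.Main

set_option autoImplicit false
open scoped Pointwise

namespace Pool.Agent.Helper4

variable {n : ℕ}

lemma exp_bd : Real.exp 0.523 ≤ 1.69 := by
  have h1 : Real.exp 0.523 * Real.exp 0.523 = Real.exp 1 * Real.exp 0.046 := by
    rw [← Real.exp_add, ← Real.exp_add]; norm_num
  have h2 : Real.exp 1 < 2.7182818286 := Real.exp_one_lt_d9
  have h3 : Real.exp 0.046 ≤ 1.05 := by
    have h4 : (1 - 0.046 : ℝ) ≤ Real.exp (-0.046) := by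
      have := Real.add_one_le_exp (-0.046 : ℝ); linarith
    rw [Real.exp_neg] at h4
    have h5 : 0 < Real.exp 0.046 := Real.exp_pos _
    have h6 : (1 - 0.046 : ℝ) * Real.exp 0.046 ≤ 1 := by
      calc (1 - 0.046 : ℝ) * Real.exp 0.046 ≤ (Real.exp 0.046)⁻¹ * Real.exp 0.046 := by gcongr
        _ = 1 := inv_mul_cancel₀ h5.ne'
    linarith
  have h7 : 0 < Real.exp 0.046 := Real.exp_pos _
  have h8 : 0 < Real.exp 0.523 := Real.exp_pos _
  by_contra hcon
  push Not at hcon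
  nlinarith

/-- Main theorem: a set of density at least `1/2 - ε` has a sumset containing a subspace of
codimension at most `k` as soon as `k > 20000 ε² n`. -/
theorem subspace_in_sumset (A : Finset (Fin n → ZMod 2)) (hA : A.Nonempty) (ε : ℝ) (hε : 0 < ε)
    (hcard : (1/2 - ε) * 2^n ≤ A.card) (k : ℕ) (hk : 20000 * ε^2 * n < k) :
    ∃ V : Submodule (ZMod 2) (Fin n → ZMod 2), n ≤ Module.finrank (ZMod 2) V + k ∧
      ∀ v ∈ V, v ∈ A + A := by
  by_contra hcon
  push Not at hcon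
  have hk0 : 0 < k := by
    have : (0:ℝ) < k := lt_of_le_of_lt (by positivity) hk
    exact_mod_cast this
  have hkn : k < n := by
    by_contra h
    push Not at h
    obtain ⟨v, hv, hv2⟩ := hcon ⊥ (by omega)
    rw [Submodule.mem_bot] at hv
    subst hv
    obtain ⟨a, ha⟩ := hA
    exact hv2 (by rw [← dd a]; exact Finset.add_mem_add ha ha)
  have hit : ∀ g : Fin k → Fin n → ZMod 2, ∃ d, d ∉ A + A ∧ ∀ i, g i ⬝ᵥ d = 0 := by
    intro g
    obtain ⟨V, hV, hV2⟩ := exists_sub g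
    obtain ⟨v, hv, hv2⟩ := hcon V hV
    exact ⟨v, hv2, (hV2 v).1 hv⟩
  have hn : (0:ℝ) < n := by exact_mod_cast (by omega : 0 < n)
  have hε2 : 20000 * ε^2 < 1 := by
    have h1 : 20000 * ε^2 * n < 1 * n := by
      have : (k:ℝ) < n := by exact_mod_cast hkn
      linarith
    exact lt_of_mul_lt_mul_right h1 hn.le
  have hε3 : ε < 1/141 := by
    by_contra h
    push Not at h
    nlinarith
  set q : ℕ := ⌊1/(25*ε)⌋₊ with hq
  have hq1 : (q:ℝ) ≤ 1/(25*ε) := Nat.floor_le (by positivity)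
  have hq2 : 1/(25*ε) < (q:ℝ) + 1 := Nat.lt_floor_add_one _
  have hqε : (q:ℝ) * ε ≤ 1/25 := by
    calc (q:ℝ) * ε ≤ 1/(25*ε) * ε := by gcongr
      _ = 1/25 := by field_simp
  have hqε2 : 1/25 ≤ ((q:ℝ)+1) * ε := by
    calc 1/25 = 1/(25*ε) * ε := by field_simp
      _ ≤ ((q:ℝ)+1) * ε := by gcongr
  set a : ℝ := 1/2 - (2 + 6*ε) * ε / (6*ε) with ha
  have ha2 : a = 1/6 - ε := by rw [ha]; field_simp; ring
  set c : ℝ := 4 - (1 + 6*ε)^(2*q+1) - (1 + 6*ε)^(2*q) with hc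
  have hpow : (1 + 6*ε)^(2*q+1) ≤ 1.69 := by
    calc (1 + 6*ε)^(2*q+1) ≤ (Real.exp (6*ε))^(2*q+1) := by
          have := Real.add_one_le_exp (6*ε)
          gcongr
          linarith
      _ = Real.exp ((2*q+1 : ℕ) * (6*ε)) := by rw [← Real.exp_nat_mul]
      _ ≤ Real.exp 0.523 := by
        apply Real.exp_le_exp.2
        push_cast
        nlinarith
      _ ≤ 1.69 := exp_bd
  have hpow2 : (1 + 6*ε)^(2*q) ≤ 1.69 := by
    refine le_trans ?_ hpow
    apply pow_le_pow_right₀ (by linarith) (by omega)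
  have hc2 : 0.62 ≤ c := by rw [hc]; linarith
  have ha3 : 0.159 ≤ a := by rw [ha2]; linarith
  have hgen := general (k := k) A ε (6*ε) q (by positivity) hcard hk0 hkn a c ha (by linarith)
    hc (by linarith) hit
  have hac : 0.098 ≤ a * c := by nlinarith
  have hE : 1/6378 ≤ ε^2 * (((q:ℝ)+1)^2 * (a * c)) := by
    have h1 : (1/25:ℝ)^2 ≤ (((q:ℝ)+1) * ε)^2 := by gcongr
    calc (1/6378:ℝ) ≤ (1/25)^2 * 0.098 := by norm_num
      _ ≤ (((q:ℝ)+1) * ε)^2 * (a*c) := by gcongr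
      _ = _ := by ring
  have hEpos : 0 < ((q:ℝ)+1)^2 * (a * c) := by positivity
  have hinv : 1 / (((q:ℝ)+1)^2 * (a * c)) ≤ 6378 * ε^2 := by
    rw [div_le_iff₀ hEpos]; linarith
  have he : Real.exp 1 < 2.7182818286 := Real.exp_one_lt_d9
  have hfin : Real.exp 1 * (1 / (((q:ℝ)+1)^2 * (a * c))) * n ≤ 20000 * ε^2 * n := by
    calc Real.exp 1 * (1 / (((q:ℝ)+1)^2 * (a * c))) * n ≤ 2.7182818286 * (6378 * ε^2) * n := by
          gcongr
      _ ≤ 20000 * ε^2 * n := by nlinarith [sq_nonneg ε, mul_nonneg (sq_nonneg ε) hn.le]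
  linarith

end Pool.Agent.Helper4
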