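import Mathlib
import Pool.Agent.Helper4.Main

set_option autoImplicit false
open scoped Pointwise

namespace Pool.Agent.Helper4

variable {n : ℕ}

/-- indicator function -/
noncomputable def ind (A : Finset (Fin n → ZMod 2)) (x : Fin n → ZMod 2) : ℝ := if x ∈ A then 1 else 0

lemma ind_sum (A : Finset (Fin n → ZMod 2)) : ∑ x, ind A x = A.card := by
  unfold ind; rw [Finset.sum_ite_mem]; simp

lemma ind_sq_sum (A : Finset (Fin n → ZMod 2)) : ∑ x, (ind A x)^2 = A.card := by
  rw [← ind_sum A]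
  apply Finset.sum_congr rfl
  intro x _
  unfold ind; split_ifs <;> norm_num

lemma ft_zero (u : (Fin n → ZMod 2) → ℝ) : ft u 0 = ∑ x, u x := by
  unfold ft chi sg
  simp

/-- For `d ∉ A + A` exactly half of the Fourier mass of `A` sits on characters killing `d`. -/
lemma half_mass (A : Finset (Fin n → ZMod 2)) (d : Fin n → ZMod 2) (hd : d ∉ A + A) :
    ∑ g ∈ Finset.univ.filter (fun g : Fin n → ZMod 2 => g ⬝ᵥ d = 0), (ft (ind A) g) ^ 2
      = 2 ^ n * A.card / 2 := by
  have h1 := parseval (fun x => ind A x + ind A (x + d))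
  simp_rw [ft_shift] at h1
  have h2 : ∑ g, ((1 + chi g d) * ft (ind A) g) ^ 2 =
      4 * ∑ g ∈ Finset.univ.filter (fun g : Fin n → ZMod 2 => g ⬝ᵥ d = 0), (ft (ind A) g) ^ 2 := by
    rw [Finset.mul_sum, Finset.sum_filter]
    apply Finset.sum_congr rfl
    intro g _
    unfold chi sg
    split_ifs with h
    · ring
    · ring
  have hshift : ∑ x, (ind A (x + d))^2 = ∑ x, (ind A x)^2 :=
    Fintype.sum_equiv (Equiv.addRight d) _ _ (fun x => rfl)
  have h3 : ∑ x, (ind A x + ind A (x + d)) ^ 2 = 2 * A.card := by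
    have : ∀ x, (ind A x + ind A (x + d)) ^ 2 = (ind A x)^2 + (ind A (x + d))^2 := by
      intro x
      have h0 : ind A x * ind A (x + d) = 0 := by
        unfold ind
        split_ifs with ha hb hb
        · exfalso
          apply hd
          have : d = x + (x + d) := by
            rw [← add_assoc, (add_eq_zero_iff' x x).2 rfl, zero_add]
          rw [this]
          exact Finset.add_mem_add ha hb
        · ring
        · ring
        · ring
      nlinarith
    simp_rw [this]
    rw [Finset.sum_add_distrib, hshift, ind_sq_sum]; ring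
  rw [h2, h3] at h1
  linarith

/-- Combination of the eigenvalue bound and the polynomial method. -/
theorem hoffman_poly (A : Finset (Fin n → ZMod 2)) (α : ℝ) (hα : 0 < α) (hα2 : α < 1/2)
    (hcard : α * 2^n ≤ A.card) (k : ℕ)
    (hk : (((Finset.univ : Finset (Finset (Fin n))).filter (fun T => T.card ≤ k)).card : ℝ) *
      ((1 - 2*α) / (2 * (1 - α))) ^ k < 1) :
    ∃ V : Submodule (ZMod 2) (Fin n → ZMod 2), n ≤ Module.finrank (ZMod 2) V + k ∧
      ∀ v ∈ V, v ∈ A + A := by
  by_contra hcon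
  push Not at hcon
  have h2n : (0:ℝ) < 2 ^ n := by positivity
  have hApos : (0:ℝ) < A.card := lt_of_lt_of_le (by positivity) hcard
  have hA : A.Nonempty := by
    rw [← Finset.card_pos]; exact_mod_cast hApos
  have hit : ∀ g : Fin k → Fin n → ZMod 2, ∃ d, d ∉ A + A ∧ ∀ i, g i ⬝ᵥ d = 0 := by
    intro g
    obtain ⟨V, hV, hV2⟩ := exists_sub g
    obtain ⟨v, hv, hv2⟩ := hcon V hV
    exact ⟨v, hv2, (hV2 v).1 hv⟩
  classical
  set D : Finset (Fin n → ZMod 2) := Finset.univ.filter (fun d => d ∉ A + A) with hD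
  have hitD : ∀ g : Fin k → Fin n → ZMod 2, ∃ d ∈ D, ∀ i, g i ⬝ᵥ d = 0 := by
    intro g
    obtain ⟨d, hd, h⟩ := hit g
    exact ⟨d, by simp [hD, hd], h⟩
  obtain ⟨D', hD'D, hit', hcard'⟩ := minimal_hit D hitD
  set w : (Fin n → ZMod 2) → ℝ := fun g => if g = 0 then 0 else (ft (ind A) g) ^ 2 with hw
  have hw0 : ∀ g, 0 ≤ w g := by
    intro g; rw [hw]; simp only; split_ifs
    · exact le_rfl
    · positivity
  have hft0 : ft (ind A) 0 = A.card := by rw [ft_zero, ind_sum]
  have htot : ∑ g, w g = 2 ^ n * A.card - (A.card : ℝ)^2 := by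
    have h1 := parseval (ind A)
    rw [ind_sq_sum] at h1
    have h2 : ∑ g, w g = ∑ g, (ft (ind A) g)^2 - (ft (ind A) 0)^2 := by
      rw [← Finset.sum_erase_add Finset.univ w (Finset.mem_univ (0 : Fin n → ZMod 2)),
        ← Finset.sum_erase_add Finset.univ (fun g => (ft (ind A) g)^2)
          (Finset.mem_univ (0 : Fin n → ZMod 2))]
      have : ∑ g ∈ Finset.univ.erase (0 : Fin n → ZMod 2), w g =
          ∑ g ∈ Finset.univ.erase (0 : Fin n → ZMod 2), (ft (ind A) g)^2 := by
        apply Finset.sum_congr rfl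
        intro g hg
        rw [hw]; simp only
        rw [if_neg (Finset.ne_of_mem_erase hg)]
      rw [this]
      have hw00 : w 0 = 0 := by rw [hw]; simp
      rw [hw00]; ring
    rw [h2, h1, hft0]
  have hkill : ∀ d ∈ D, ∑ g ∈ Finset.univ.filter (fun g : Fin n → ZMod 2 => g ⬝ᵥ d = 0), w g
      = 2 ^ n * A.card / 2 - (A.card : ℝ)^2 := by
    intro d hd
    have hd' : d ∉ A + A := (Finset.mem_filter.1 hd).2
    have h1 := half_mass A d hd'
    have h0 : (0 : Fin n → ZMod 2) ∈ Finset.univ.filter (fun g : Fin n → ZMod 2 => g ⬝ᵥ d = 0) := by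
      simp
    rw [← Finset.sum_erase_add _ _ h0]
    rw [← Finset.sum_erase_add _ _ h0] at h1
    have : ∑ g ∈ (Finset.univ.filter (fun g : Fin n → ZMod 2 => g ⬝ᵥ d = 0)).erase 0, w g =
        ∑ g ∈ (Finset.univ.filter (fun g : Fin n → ZMod 2 => g ⬝ᵥ d = 0)).erase 0,
          (ft (ind A) g)^2 := by
      apply Finset.sum_congr rfl
      intro g hg
      rw [hw]; simp only
      rw [if_neg (Finset.ne_of_mem_erase hg)]
    rw [this]
    have hw00 : w 0 = 0 := by rw [hw]; simp
    rw [hw00]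
    rw [hft0] at h1
    linarith
  -- density at most 1/2
  have hhalf : (A.card : ℝ) ≤ 2 ^ n / 2 := by
    obtain ⟨d, hd, _⟩ := hit' (fun _ => 0)
    have h1 := hkill d (hD'D hd)
    have h2 : 0 ≤ ∑ g ∈ Finset.univ.filter (fun g : Fin n → ZMod 2 => g ⬝ᵥ d = 0), w g :=
      Finset.sum_nonneg (fun g _ => hw0 g)
    rw [h1] at h2
    by_contra hh
    push Not at hh
    nlinarith
  have htotpos : 0 < ∑ g, w g := by
    rw [htot]; nlinarith
  have hδ0 : 0 ≤ (1 - 2*α) / (2 * (1 - α)) := by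
    apply div_nonneg <;> linarith
  have hdel : ∀ d ∈ D', ∑ g ∈ Finset.univ.filter (fun g : Fin n → ZMod 2 => g ⬝ᵥ d = 0), w g
      ≤ ((1 - 2*α) / (2 * (1 - α))) * ∑ g, w g := by
    intro d hd
    rw [hkill d (hD'D hd), htot, div_mul_eq_mul_div, le_div_iff₀ (by linarith)]
    nlinarith [mul_nonneg hApos.le (sub_nonneg.2 hcard)]
  have h1 := tuple (k := k) w hw0 htotpos _ D' hdel hit'
  have h2 : (D'.card : ℝ) * ((1 - 2*α) / (2 * (1 - α))) ^ k ≤
      (((Finset.univ : Finset (Finset (Fin n))).filter (fun T => T.card ≤ k)).card : ℝ) *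
      ((1 - 2*α) / (2 * (1 - α))) ^ k := by
    apply mul_le_mul_of_nonneg_right _ (by positivity)
    exact_mod_cast hcard'
  linarith

end Pool.Agent.Helper4
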