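import Mathlib
import Pool.Agent.Helper4.Level

set_option autoImplicit false
open scoped Pointwise

namespace Pool.Agent.Helper4

variable {n : ℕ}

/-- refined level functions -/
noncomputable def phi2 (A D : Finset (Fin n → ZMod 2)) (q : ℕ) (x : Fin n → ZMod 2) : ℝ :=
  (∑ i ∈ Finset.range (q+1), if x ∈ S A D (2*i) then (1:ℝ) else 0) +
    ∑ i ∈ Finset.range q, if x ∈ S A D (2*(i+1)) then (1:ℝ) else 0

noncomputable def psi2 (A D : Finset (Fin n → ZMod 2)) (q : ℕ) (x : Fin n → ZMod 2) : ℝ :=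
  (∑ i ∈ Finset.range (q+1), if x ∈ S A D (2*i+1) then (1:ℝ) else 0) +
    ∑ i ∈ Finset.range q, if x ∈ S A D (2*i+1) then (1:ℝ) else 0

noncomputable def PP (A D : Finset (Fin n → ZMod 2)) (q : ℕ) (x d : Fin n → ZMod 2) : ℝ :=
  (∑ i ∈ Finset.range (q+1), if x + d ∈ S A D (2*i+1) then (1:ℝ) else 0) -
  (∑ i ∈ Finset.range (q+1), if x ∈ S A D (2*i) then (1:ℝ) else 0)

noncomputable def QQ (A D : Finset (Fin n → ZMod 2)) (q : ℕ) (x d : Fin n → ZMod 2) : ℝ :=
  (∑ i ∈ Finset.range q, if x ∈ S A D (2*(i+1)) then (1:ℝ) else 0) -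
  (∑ i ∈ Finset.range q, if x + d ∈ S A D (2*i+1) then (1:ℝ) else 0)

lemma PP_nonneg (A D : Finset (Fin n → ZMod 2)) (q : ℕ) (x d : Fin n → ZMod 2) (hd : d ∈ D) :
    0 ≤ PP A D q x d := by
  have := phi_le_psi A D q x d hd
  unfold phi psi at this
  unfold PP
  linarith

lemma PP_le (A D : Finset (Fin n → ZMod 2)) (q : ℕ) (x d : Fin n → ZMod 2) (hd : d ∈ D) :
    PP A D q x d ≤ 1 := by
  have := psi_le_phi A D q x d hd
  unfold phi psi at this
  unfold PP
  linarith

lemma QQ_nonneg (A D : Finset (Fin n → ZMod 2)) (q : ℕ) (x d : Fin n → ZMod 2) (hd : d ∈ D) :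
    0 ≤ QQ A D q x d := by
  unfold QQ
  rw [← Finset.sum_sub_distrib]
  apply Finset.sum_nonneg
  intro i _
  by_cases h : x + d ∈ S A D (2*i+1)
  · have h2 := S_step A D _ _ d h hd
    rw [xdd, show 2*i+1+1 = 2*(i+1) by ring] at h2
    rw [if_pos h, if_pos h2, sub_self]
  · rw [if_neg h, sub_zero]; split_ifs <;> norm_num

lemma QQ_le (A D : Finset (Fin n → ZMod 2)) (q : ℕ) (x d : Fin n → ZMod 2) (hd : d ∈ D) :
    QQ A D q x d ≤ 1 := by
  have h1 : ∑ i ∈ Finset.range q, (if x ∈ S A D (2*i) then (1:ℝ) else 0) ≤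
      ∑ i ∈ Finset.range q, (if x + d ∈ S A D (2*i+1) then (1:ℝ) else 0) := by
    apply Finset.sum_le_sum
    intro i _
    by_cases h : x ∈ S A D (2*i)
    · rw [if_pos h, if_pos (S_step A D _ x d h hd)]
    · rw [if_neg h]; split_ifs <;> norm_num
  have h2 : ∑ i ∈ Finset.range q, (if x ∈ S A D (2*(i+1)) then (1:ℝ) else 0) +
      (if x ∈ S A D (2*0) then (1:ℝ) else 0) =
      ∑ i ∈ Finset.range q, (if x ∈ S A D (2*i) then (1:ℝ) else 0) +
      (if x ∈ S A D (2*q) then (1:ℝ) else 0) := by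
    rw [← Finset.sum_range_succ' (fun i => if x ∈ S A D (2*i) then (1:ℝ) else 0) q,
      Finset.sum_range_succ]
  have h3 : (0:ℝ) ≤ (if x ∈ S A D (2*0) then (1:ℝ) else 0) := by split_ifs <;> norm_num
  have h4 : (if x ∈ S A D (2*q) then (1:ℝ) else 0) ≤ 1 := by split_ifs <;> norm_num
  unfold QQ
  linarith

lemma phi2_sub_psi2 (A D : Finset (Fin n → ZMod 2)) (q : ℕ) (x d : Fin n → ZMod 2) :
    phi2 A D q x - psi2 A D q (x + d) = QQ A D q x d - PP A D q x d := by
  unfold phi2 psi2 PP QQ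
  ring

lemma diff_sq (A D : Finset (Fin n → ZMod 2)) (q : ℕ) (x d : Fin n → ZMod 2) (hd : d ∈ D) :
    (phi2 A D q x - psi2 A D q (x + d)) ^ 2 ≤ PP A D q x d + QQ A D q x d := by
  rw [phi2_sub_psi2]
  have h1 := PP_nonneg A D q x d hd
  have h2 := PP_le A D q x d hd
  have h3 := QQ_nonneg A D q x d hd
  have h4 := QQ_le A D q x d hd
  nlinarith [mul_nonneg h1 h3, mul_nonneg h1 (sub_nonneg.2 h2), mul_nonneg h3 (sub_nonneg.2 h4)]

lemma sum_ind (T : Finset (Fin n → ZMod 2)) :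
    ∑ x : Fin n → ZMod 2, (if x ∈ T then (1:ℝ) else 0) = T.card := by
  rw [Finset.sum_ite_mem]; simp

lemma sum_ind_shift (T : Finset (Fin n → ZMod 2)) (d : Fin n → ZMod 2) :
    ∑ x : Fin n → ZMod 2, (if x + d ∈ T then (1:ℝ) else 0) = T.card := by
  rw [← sum_ind T]
  exact Fintype.sum_equiv (Equiv.addRight d) _ _ (fun x => rfl)

lemma sum_PQ (A D : Finset (Fin n → ZMod 2)) (q : ℕ) (d : Fin n → ZMod 2) :
    ∑ x, (PP A D q x d + QQ A D q x d) = (S A D (2*q+1)).card - A.card := by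
  unfold PP QQ
  rw [Finset.sum_add_distrib, Finset.sum_sub_distrib, Finset.sum_sub_distrib]
  have e1 : ∑ x : Fin n → ZMod 2, ∑ i ∈ Finset.range (q+1),
      (if x + d ∈ S A D (2*i+1) then (1:ℝ) else 0) =
      ∑ i ∈ Finset.range (q+1), ((S A D (2*i+1)).card : ℝ) := by
    rw [Finset.sum_comm]; exact Finset.sum_congr rfl (fun i _ => sum_ind_shift _ d)
  have e2 : ∑ x : Fin n → ZMod 2, ∑ i ∈ Finset.range (q+1),
      (if x ∈ S A D (2*i) then (1:ℝ) else 0) =
      ∑ i ∈ Finset.range (q+1), ((S A D (2*i)).card : ℝ) := by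
    rw [Finset.sum_comm]; exact Finset.sum_congr rfl (fun i _ => sum_ind _)
  have e3 : ∑ x : Fin n → ZMod 2, ∑ i ∈ Finset.range q,
      (if x ∈ S A D (2*(i+1)) then (1:ℝ) else 0) =
      ∑ i ∈ Finset.range q, ((S A D (2*(i+1))).card : ℝ) := by
    rw [Finset.sum_comm]; exact Finset.sum_congr rfl (fun i _ => sum_ind _)
  have e4 : ∑ x : Fin n → ZMod 2, ∑ i ∈ Finset.range q,
      (if x + d ∈ S A D (2*i+1) then (1:ℝ) else 0) =
      ∑ i ∈ Finset.range q, ((S A D (2*i+1)).card : ℝ) := by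
    rw [Finset.sum_comm]; exact Finset.sum_congr rfl (fun i _ => sum_ind_shift _ d)
  rw [e1, e2, e3, e4]
  rw [Finset.sum_range_succ (fun i => ((S A D (2*i+1)).card : ℝ)) q,
    Finset.sum_range_succ' (fun i => ((S A D (2*i)).card : ℝ)) q]
  have : (S A D (2*0)) = A := rfl
  rw [this]
  ring

noncomputable def u2 (A D : Finset (Fin n → ZMod 2)) (q : ℕ) (x : Fin n → ZMod 2) : ℝ :=
  phi2 A D q x - psi2 A D q x

lemma u2_energy (A D : Finset (Fin n → ZMod 2)) (q : ℕ) (d : Fin n → ZMod 2) (hd : d ∈ D) :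
    ∑ x, (u2 A D q x + u2 A D q (x + d)) ^ 2 ≤ 4 * ((S A D (2*q+1)).card - A.card) := by
  have h1 : ∀ x, (u2 A D q x + u2 A D q (x + d)) ^ 2 ≤
      2 * (PP A D q x d + QQ A D q x d) +
      2 * (PP A D q (x + d) d + QQ A D q (x + d) d) := by
    intro x
    have a1 := diff_sq A D q x d hd
    have a2 := diff_sq A D q (x + d) d hd
    rw [xdd] at a2
    unfold u2
    nlinarith [sq_nonneg ((phi2 A D q x - psi2 A D q (x + d)) -
      (phi2 A D q (x + d) - psi2 A D q x))]
  have h2 : ∑ x, (PP A D q (x + d) d + QQ A D q (x + d) d) =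
      ∑ x, (PP A D q x d + QQ A D q x d) :=
    Fintype.sum_equiv (Equiv.addRight d) _ _ (fun x => rfl)
  calc ∑ x, (u2 A D q x + u2 A D q (x + d)) ^ 2
      ≤ ∑ x, (2 * (PP A D q x d + QQ A D q x d) +
      2 * (PP A D q (x + d) d + QQ A D q (x + d) d)) := Finset.sum_le_sum (fun x _ => h1 x)
    _ = 4 * ((S A D (2*q+1)).card - A.card) := by
      rw [Finset.sum_add_distrib, ← Finset.mul_sum, ← Finset.mul_sum, h2, sum_PQ]; ring

lemma u2_left (A D : Finset (Fin n → ZMod 2)) (hD : D.Nonempty) (q : ℕ) (x : Fin n → ZMod 2)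
    (hx : x ∈ A) (hx2 : x ∉ S A D (2*q+1)) : u2 A D q x = 2 * q + 1 := by
  unfold u2 phi2 psi2
  have hall : ∀ i, x ∈ S A D (2*i) := by
    intro i
    have := S_two_mul A D hD 0 i hx
    rwa [zero_add] at this
  have hnone : ∀ i, i ≤ q → x ∉ S A D (2*i+1) := by
    intro i hi hcon
    apply hx2
    have := S_two_mul A D hD (2*i+1) (q-i) hcon
    rwa [show 2*i+1+2*(q-i) = 2*q+1 by omega] at this
  have h1 : ∑ i ∈ Finset.range (q+1), (if x ∈ S A D (2*i) then (1:ℝ) else 0) = q + 1 := by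
    rw [Finset.sum_congr rfl (g := fun _ => (1:ℝ))]
    · simp
    · intro i _; rw [if_pos (hall i)]
  have h2 : ∑ i ∈ Finset.range q, (if x ∈ S A D (2*(i+1)) then (1:ℝ) else 0) = q := by
    rw [Finset.sum_congr rfl (g := fun _ => (1:ℝ))]
    · simp
    · intro i _; rw [if_pos (hall (i+1))]
  have h3 : ∑ i ∈ Finset.range (q+1), (if x ∈ S A D (2*i+1) then (1:ℝ) else 0) = 0 := by
    apply Finset.sum_eq_zero
    intro i hi
    rw [if_neg (hnone i (by have := Finset.mem_range.1 hi; omega))]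
  have h4 : ∑ i ∈ Finset.range q, (if x ∈ S A D (2*i+1) then (1:ℝ) else 0) = 0 := by
    apply Finset.sum_eq_zero
    intro i hi
    rw [if_neg (hnone i (by have := Finset.mem_range.1 hi; omega))]
  rw [h1, h2, h3, h4]; ring

lemma u2_right (A D : Finset (Fin n → ZMod 2)) (hD : D.Nonempty) (q : ℕ) (x : Fin n → ZMod 2)
    (hx : x ∈ A + D) (hx2 : x ∉ S A D (2*q)) : u2 A D q x = -(2 * q + 1) := by
  unfold u2 phi2 psi2
  have hall : ∀ i, x ∈ S A D (2*i+1) := by
    intro i
    have := S_two_mul A D hD 1 i hx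
    rwa [add_comm] at this
  have hnone : ∀ i, i ≤ q → x ∉ S A D (2*i) := by
    intro i hi hcon
    apply hx2
    have := S_two_mul A D hD (2*i) (q-i) hcon
    rwa [show 2*i+2*(q-i) = 2*q by omega] at this
  have h1 : ∑ i ∈ Finset.range (q+1), (if x ∈ S A D (2*i+1) then (1:ℝ) else 0) = q + 1 := by
    rw [Finset.sum_congr rfl (g := fun _ => (1:ℝ))]
    · simp
    · intro i _; rw [if_pos (hall i)]
  have h2 : ∑ i ∈ Finset.range q, (if x ∈ S A D (2*i+1) then (1:ℝ) else 0) = q := by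
    rw [Finset.sum_congr rfl (g := fun _ => (1:ℝ))]
    · simp
    · intro i _; rw [if_pos (hall i)]
  have h3 : ∑ i ∈ Finset.range (q+1), (if x ∈ S A D (2*i) then (1:ℝ) else 0) = 0 := by
    apply Finset.sum_eq_zero
    intro i hi
    rw [if_neg (hnone i (by have := Finset.mem_range.1 hi; omega))]
  have h4 : ∑ i ∈ Finset.range q, (if x ∈ S A D (2*(i+1)) then (1:ℝ) else 0) = 0 := by
    apply Finset.sum_eq_zero
    intro i hi
    rw [if_neg (hnone (i+1) (by have := Finset.mem_range.1 hi; omega))]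
  rw [h1, h2, h3, h4]; ring

/-- lower bound for the `L^2` norm of the refined level function -/
lemma u2_norm (A D : Finset (Fin n → ZMod 2)) (hD : D.Nonempty) (q : ℕ)
    (hdisj : Disjoint A (A + D)) :
    (2*(q:ℝ)+1)^2 * (4 * A.card - (S A D (2*q+1)).card - (S A D (2*q)).card) ≤
      ∑ x, (u2 A D q x)^2 := by
  classical
  have hAD : A + D ⊆ S A D (2*q+1) := by
    have := S_two_mul A D hD 1 q
    rw [add_comm] at this
    exact this
  have hA0 : A ⊆ S A D (2*q) := by
    have := S_two_mul A D hD 0 q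
    rw [zero_add] at this
    exact this
  have hcardAD : A.card ≤ (A + D).card := by
    obtain ⟨d, hd⟩ := hD
    have : A + {d} ⊆ A + D := Finset.add_subset_add_left (by simpa using hd)
    have h2 := Finset.card_le_card this
    rwa [Finset.card_add_singleton] at h2
  set U := A \ S A D (2*q+1) with hU
  set W := (A + D) \ S A D (2*q) with hW
  have hUW : Disjoint U W :=
    Finset.disjoint_of_subset_left Finset.sdiff_subset
      (Finset.disjoint_of_subset_right Finset.sdiff_subset hdisj)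
  have cU : 2 * A.card ≤ U.card + (S A D (2*q+1)).card := by
    have h1 : A.card = U.card + (A ∩ S A D (2*q+1)).card := by
      rw [hU]
      have := Finset.card_sdiff_add_card_inter A (S A D (2*q+1))
      omega
    have h2 : (A ∩ S A D (2*q+1)).card + (A + D).card ≤ (S A D (2*q+1)).card := by
      rw [← Finset.card_union_of_disjoint]
      · apply Finset.card_le_card
        apply Finset.union_subset Finset.inter_subset_right hAD
      · exact Finset.disjoint_of_subset_left Finset.inter_subset_left hdisj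
    omega
  have cW : 2 * A.card ≤ W.card + (S A D (2*q)).card := by
    have h1 : (A + D).card = W.card + ((A + D) ∩ S A D (2*q)).card := by
      rw [hW]
      have := Finset.card_sdiff_add_card_inter (A + D) (S A D (2*q))
      omega
    have h2 : ((A + D) ∩ S A D (2*q)).card + A.card ≤ (S A D (2*q)).card := by
      rw [← Finset.card_union_of_disjoint]
      · apply Finset.card_le_card
        apply Finset.union_subset Finset.inter_subset_right hA0
      · exact Finset.disjoint_of_subset_left Finset.inter_subset_left hdisj.symm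
    omega
  have h1 : ∑ x ∈ U ∪ W, (u2 A D q x)^2 ≤ ∑ x, (u2 A D q x)^2 :=
    Finset.sum_le_sum_of_subset_of_nonneg (Finset.subset_univ _) (fun x _ _ => sq_nonneg _)
  have h2 : ∑ x ∈ U ∪ W, (u2 A D q x)^2 = (2*(q:ℝ)+1)^2 * (U.card + W.card) := by
    rw [Finset.sum_union hUW]
    have e1 : ∑ x ∈ U, (u2 A D q x)^2 = U.card * (2*(q:ℝ)+1)^2 := by
      rw [Finset.sum_congr rfl (g := fun _ => (2*(q:ℝ)+1)^2)]
      · simp
      · intro x hx
        rw [hU, Finset.mem_sdiff] at hx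
        rw [u2_left A D hD q x hx.1 hx.2]
    have e2 : ∑ x ∈ W, (u2 A D q x)^2 = W.card * (2*(q:ℝ)+1)^2 := by
      rw [Finset.sum_congr rfl (g := fun _ => (2*(q:ℝ)+1)^2)]
      · simp
      · intro x hx
        rw [hW, Finset.mem_sdiff] at hx
        rw [u2_right A D hD q x hx.1 hx.2]
        ring
    rw [e1, e2]; ring
  have cU' : 2 * (A.card:ℝ) ≤ U.card + (S A D (2*q+1)).card := by exact_mod_cast cU
  have cW' : 2 * (A.card:ℝ) ≤ W.card + (S A D (2*q)).card := by exact_mod_cast cW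
  calc _ ≤ (2*(q:ℝ)+1)^2 * (U.card + W.card) := by
        apply mul_le_mul_of_nonneg_left _ (sq_nonneg _)
        linarith
    _ ≤ _ := by rw [← h2]; exact h1

/-- Fourier weight killed by `d`, integrated form. -/
lemma weight_le2 (u : (Fin n → ZMod 2) → ℝ) (d : Fin n → ZMod 2)
    (B : ℝ) (h : ∑ x, (u x + u (x + d)) ^ 2 ≤ 4 * B) :
    ∑ g ∈ Finset.univ.filter (fun g : Fin n → ZMod 2 => g ⬝ᵥ d = 0), (ft u g) ^ 2
      ≤ B * 2 ^ n := by
  have h1 := parseval (fun x => u x + u (x + d))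
  simp_rw [ft_shift] at h1
  have h2 : 4 * ∑ g ∈ Finset.univ.filter (fun g : Fin n → ZMod 2 => g ⬝ᵥ d = 0), (ft u g) ^ 2
      ≤ ∑ g, ((1 + chi g d) * ft u g) ^ 2 := by
    rw [Finset.mul_sum]
    calc ∑ g ∈ Finset.univ.filter (fun g : Fin n → ZMod 2 => g ⬝ᵥ d = 0), 4 * (ft u g) ^ 2
        = ∑ g ∈ Finset.univ.filter (fun g : Fin n → ZMod 2 => g ⬝ᵥ d = 0),
          ((1 + chi g d) * ft u g) ^ 2 := by
          apply Finset.sum_congr rfl
          intro g hg
          have hg' : g ⬝ᵥ d = 0 := (Finset.mem_filter.1 hg).2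
          have : chi g d = 1 := by unfold chi sg; rw [if_pos hg']
          rw [this]; ring
      _ ≤ ∑ g, ((1 + chi g d) * ft u g) ^ 2 := by
          apply Finset.sum_le_sum_of_subset_of_nonneg (Finset.filter_subset _ _)
          intro g _ _
          positivity
  have h3 : (2:ℝ) ^ n * ∑ x, (u x + u (x + d)) ^ 2 ≤ 2 ^ n * (4 * B) := by gcongr
  linarith

end Pool.Agent.Helper4
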