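import Mathlib
import Pool.Agent.Helper4.Level2
import Pool.Agent.Helper4.Main

set_option autoImplicit false
open scoped Pointwise

namespace Pool.Agent.Helper4

variable {n : ℕ}

lemma general2 {k : ℕ} (A : Finset (Fin n → ZMod 2)) (hA : A.Nonempty) (ε κ : ℝ) (q : ℕ)
    (hε : 0 < ε) (hε2 : ε < 1/2) (hκ : 4 * ε < κ * (1 - 2 * ε))
    (hcard : (1/2 - ε) * 2^n ≤ A.card)
    (hk : 0 < k) (hkn : k < n)
    (c : ℝ) (hc : c = 4 - (1 + κ)^(2*q+1) - (1 + κ)^(2*q)) (hc0 : 0 < c)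
    (hit : ∀ g : Fin k → Fin n → ZMod 2, ∃ d, d ∉ A + A ∧ ∀ i, g i ⬝ᵥ d = 0) :
    (k:ℝ) ≤ Real.exp 1 * (((1 + κ)^(2*q+1) - 1) / ((2*q+1)^2 * c)) * n := by
  classical
  have hκ0 : 0 < κ := by
    by_contra h
    push Not at h
    have : κ * (1 - 2*ε) ≤ 0 := mul_nonpos_of_nonpos_of_nonneg h (by linarith)
    linarith
  set D : Finset (Fin n → ZMod 2) := Finset.univ.filter (fun d => d ∉ A + A) with hD
  have hitD : ∀ g : Fin k → Fin n → ZMod 2, ∃ d ∈ D, ∀ i, g i ⬝ᵥ d = 0 := by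
    intro g
    obtain ⟨d, hd, h⟩ := hit g
    exact ⟨d, by simp [hD, hd], h⟩
  have hDne : D.Nonempty := by
    obtain ⟨d, hd, _⟩ := hitD (fun _ => 0)
    exact ⟨d, hd⟩
  have hdisj0 : Disjoint A (A + D) := by
    rw [Finset.disjoint_left]
    intro x hx hx2
    obtain ⟨y, hy, d, hd, rfl⟩ := Finset.mem_add.1 hx2
    rw [hD, Finset.mem_filter] at hd
    apply hd.2
    have : d = y + (y + d) := by rw [← add_assoc, dd, zero_add]
    rw [this]
    exact Finset.add_mem_add hy hx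
  have hcardD : ((A + D).card : ℝ) + A.card ≤ 2 ^ n := by
    have h1 : (A + D).card + A.card ≤ Fintype.card (Fin n → ZMod 2) := by
      rw [add_comm, ← Finset.card_union_of_disjoint hdisj0]
      exact Finset.card_le_univ _
    have h2 : Fintype.card (Fin n → ZMod 2) = 2 ^ n := by simp
    rw [h2] at h1
    exact_mod_cast h1
  obtain ⟨A', hA'A, hmin, hneg, hpet⟩ := petridis A D (1 + κ)
  have hA'ne : A'.Nonempty := by
    by_contra hcon
    rw [Finset.not_nonempty_iff_eq_empty] at hcon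
    rw [hcon] at hmin
    simp only [Finset.empty_add, Finset.card_empty, Nat.cast_zero, mul_zero, sub_zero] at hmin
    -- 0 ≤ |A+D| - (1+κ)|A| ≤ 2^n - (2+κ)|A| < 0
    have h2n : (0:ℝ) < 2^n := by positivity
    have h1 : (2 + κ) * ((1/2 - ε) * 2^n) ≤ (2 + κ) * A.card := by gcongr
    have h3 : (2:ℝ)^n < (2 + κ) * ((1/2 - ε) * 2^n) := by
      have h4 : 1 < (2 + κ) * (1/2 - ε) := by nlinarith
      calc (2:ℝ)^n = 1 * 2^n := by ring
        _ < ((2 + κ) * (1/2 - ε)) * 2^n := by gcongr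
        _ = _ := by ring
    linarith
  have hA'pos : (0:ℝ) < A'.card := by exact_mod_cast Finset.card_pos.2 hA'ne
  have hdisj : Disjoint A' (A' + D) :=
    Finset.disjoint_of_subset_left hA'A
      (Finset.disjoint_of_subset_right (Finset.add_subset_add_right hA'A) hdisj0)
  have hgrow := S_card A' D hDne (1 + κ) (by positivity) hneg hpet
  have hnorm := u2_norm A' D hDne q hdisj
  set ℓ : ℝ := 2 * (q:ℝ) + 1 with hℓ
  have hℓpos : 0 < ℓ := by positivity
  have hnorm2 : ℓ^2 * c * A'.card ≤ ∑ x, (u2 A' D q x)^2 := by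
    refine le_trans ?_ hnorm
    have h1 := hgrow (2*q+1)
    have h2 := hgrow (2*q)
    have h4 : c * (A'.card : ℝ) ≤ 4 * A'.card - (S A' D (2*q+1)).card - (S A' D (2*q)).card := by
      rw [hc]; linarith
    calc ℓ^2 * c * A'.card = ℓ^2 * (c * A'.card) := by ring
      _ ≤ _ := by
        apply mul_le_mul_of_nonneg_left h4 (by positivity)
  set w : (Fin n → ZMod 2) → ℝ := fun g => (ft (u2 A' D q) g) ^ 2 with hw
  have hpars := parseval (u2 A' D q)
  have hW : ℓ^2 * c * A'.card * 2 ^ n ≤ ∑ g, w g := by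
    rw [hw]
    simp only
    rw [hpars]
    calc ℓ^2 * c * A'.card * 2 ^ n = 2 ^ n * (ℓ^2 * c * A'.card) := by ring
      _ ≤ _ := by gcongr
  set N : ℝ := (1 + κ)^(2*q+1) - 1 with hN
  have hNpos : 0 < N := by
    have : 1 < (1 + κ)^(2*q+1) := one_lt_pow₀ (by linarith) (by omega)
    linarith
  have hWpos : 0 < ∑ g, w g := lt_of_lt_of_le (by positivity) hW
  have hWd : ∀ d ∈ D, ∑ g ∈ Finset.univ.filter (fun g : Fin n → ZMod 2 => g ⬝ᵥ d = 0), w g
      ≤ (N / (ℓ^2 * c)) * ∑ g, w g := by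
    intro d hd
    have h1 := weight_le2 (u2 A' D q) d _ (u2_energy A' D q d hd)
    have h2 : ((S A' D (2*q+1)).card : ℝ) - A'.card ≤ N * A'.card := by
      have := hgrow (2*q+1)
      rw [hN]; linarith
    have h3 : ∑ g ∈ Finset.univ.filter (fun g : Fin n → ZMod 2 => g ⬝ᵥ d = 0), w g
        ≤ N * A'.card * 2 ^ n := by
      rw [hw]; simp only
      calc _ ≤ _ := h1
        _ ≤ N * A'.card * 2 ^ n := by gcongr
    refine h3.trans ?_
    have hEpos : 0 < ℓ^2 * c := by positivity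
    calc N * A'.card * 2 ^ n = (N / (ℓ^2 * c)) * (ℓ^2 * c * A'.card * 2 ^ n) := by
          field_simp
      _ ≤ (N / (ℓ^2 * c)) * ∑ g, w g := by gcongr
  obtain ⟨D', hD'D, hit', hcard'⟩ := minimal_hit D hitD
  have h1 := tuple (k := k) w (fun g => by rw [hw]; positivity) hWpos (N / (ℓ^2 * c)) D'
    (fun d hd => hWd d (hD'D hd)) hit'
  exact final_count hk hkn D' (N / (ℓ^2 * c)) (by positivity) hcard' h1

lemma exp_poly (y : ℝ) (h0 : 0 ≤ y) (h1 : y ≤ 1/2) :
    Real.exp y ≤ 1 + y + y^2/2 + y^3/5 := by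
  have h := Real.exp_bound' h0 (by linarith : y ≤ 1) (n := 4) (by norm_num)
  simp only [Finset.sum_range_succ, Finset.sum_range_zero, Nat.factorial] at h
  norm_num at h
  nlinarith [pow_nonneg h0 3, pow_nonneg h0 4, mul_nonneg (pow_nonneg h0 3) (sub_nonneg.2 h1)]

/-- A set of density at least `1/2 - ε` has a sumset containing a subspace of
codimension at most `k` as soon as `k > 200 ε² n`. -/
theorem subspace_in_sumset2 (A : Finset (Fin n → ZMod 2)) (hA : A.Nonempty) (ε : ℝ) (hε : 0 < ε)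
    (hcard : (1/2 - ε) * 2^n ≤ A.card) (k : ℕ) (hk : 200 * ε^2 * n < k) :
    ∃ V : Submodule (ZMod 2) (Fin n → ZMod 2), n ≤ Module.finrank (ZMod 2) V + k ∧
      ∀ v ∈ V, v ∈ A + A := by
  by_contra hcon
  push Not at hcon
  have hk0 : 0 < k := by
    have : (0:ℝ) < k := lt_of_le_of_lt (by positivity) hk
    exact_mod_cast this
  have hkn : k < n := by
    by_contra h
    push Not at h
    obtain ⟨v, hv, hv2⟩ := hcon ⊥ (by omega)
    rw [Submodule.mem_bot] at hv
    subst hv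
    obtain ⟨a, ha⟩ := hA
    exact hv2 (by rw [← dd a]; exact Finset.add_mem_add ha ha)
  have hit : ∀ g : Fin k → Fin n → ZMod 2, ∃ d, d ∉ A + A ∧ ∀ i, g i ⬝ᵥ d = 0 := by
    intro g
    obtain ⟨V, hV, hV2⟩ := exists_sub g
    obtain ⟨v, hv, hv2⟩ := hcon V hV
    exact ⟨v, hv2, (hV2 v).1 hv⟩
  have hn : (0:ℝ) < n := by exact_mod_cast (by omega : 0 < n)
  have hε2 : 200 * ε^2 < 1 := by
    have h1 : 200 * ε^2 * n < 1 * n := by
      have : (k:ℝ) < n := by exact_mod_cast hkn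
      linarith
    exact lt_of_mul_lt_mul_right h1 hn.le
  have hε3 : ε < 0.0708 := by
    by_contra h
    push Not at h
    nlinarith
  have he : Real.exp 1 < 2.7182818286 := Real.exp_one_lt_d9
  by_cases hcase : 0.0315 ≤ ε
  · -- one level is enough
    set κ : ℝ := 4.01 * ε / (1 - 2 * ε) with hκ
    have h12 : 0 < 1 - 2*ε := by linarith
    have hκmul : κ * (1 - 2*ε) = 4.01 * ε := by rw [hκ]; exact div_mul_cancel₀ _ h12.ne'
    have hκpos : 0 < κ := by positivity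
    have hκ2 : κ < 2 := by
      rw [hκ, div_lt_iff₀ h12]; linarith
    have hgen := general2 (k := k) A hA ε κ 0 hε (by linarith) (by rw [hκmul]; linarith) hcard
      hk0 hkn (4 - (1 + κ)^(2*0+1) - (1 + κ)^(2*0)) rfl (by norm_num; linarith) hit
    have hsimp : ((1 + κ)^(2*0+1) - 1) / ((2*((0:ℕ):ℝ)+1)^2 * (4 - (1 + κ)^(2*0+1) - (1 + κ)^(2*0)))
        = κ / (2 - κ) := by
      norm_num; ring
    rw [hsimp] at hgen
    have hδ : κ / (2 - κ) ≤ 73.5 * ε^2 := by
      rw [div_le_iff₀ (by linarith)]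
      have h1 : 2 - κ = (2 - 8.01 * ε) / (1 - 2*ε) := by
        rw [hκ]; field_simp; ring
      rw [h1, hκ, ← mul_div_assoc, div_le_div_iff_of_pos_right h12]
      have h2 : 0 ≤ (ε - 0.0315) * (0.0708 - ε) :=
        mul_nonneg (by linarith) (by linarith)
      have h3 : 4.01 ≤ 73.5 * (ε * (2 - 8.01 * ε)) := by nlinarith
      calc 4.01 * ε ≤ (73.5 * (ε * (2 - 8.01 * ε))) * ε := by gcongr
        _ = 73.5 * ε^2 * (2 - 8.01 * ε) := by ring
    have : Real.exp 1 * (κ / (2 - κ)) * n ≤ 200 * ε^2 * n := by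
      calc Real.exp 1 * (κ / (2 - κ)) * n ≤ 2.7182818286 * (73.5 * ε^2) * n := by
            gcongr
        _ ≤ 200 * ε^2 * n := by nlinarith [sq_nonneg ε, mul_nonneg (sq_nonneg ε) hn.le]
    linarith
  · push Not at hcase
    set κ : ℝ := 4.3 * ε with hκ
    have hκpos : 0 < κ := by positivity
    have hκlt : κ < 0.1355 := by rw [hκ]; linarith
    set q : ℕ := ⌊0.17/κ⌋₊ with hq
    have hq1 : (q:ℝ) ≤ 0.17/κ := Nat.floor_le (by positivity)
    have hq2 : 0.17/κ < (q:ℝ) + 1 := Nat.lt_floor_add_one _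
    have hqκ : (q:ℝ) * κ ≤ 0.17 := by
      calc (q:ℝ) * κ ≤ 0.17/κ * κ := by gcongr
        _ = 0.17 := by field_simp
    have hqκ2 : 0.17 ≤ ((q:ℝ)+1) * κ := by
      calc 0.17 = 0.17/κ * κ := by field_simp
        _ ≤ ((q:ℝ)+1) * κ := by gcongr
    set y : ℝ := (2 * (q:ℝ) + 1) * κ with hy
    have hy1 : 0.2045 ≤ y := by rw [hy]; linarith
    have hy2 : y ≤ 0.4755 := by rw [hy]; linarith
    have hE : Real.exp y ≤ 1 + y + y^2/2 + y^3/5 := exp_poly y (by linarith) (by linarith)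
    have hpow : (1 + κ)^(2*q+1) ≤ Real.exp y := by
      calc (1 + κ)^(2*q+1) ≤ (Real.exp κ)^(2*q+1) := by
            have := Real.add_one_le_exp κ
            gcongr
            linarith
        _ = Real.exp ((2*q+1 : ℕ) * κ) := by rw [← Real.exp_nat_mul]
        _ = Real.exp y := by rw [hy]; push_cast; ring_nf
    have hpow2 : (1 + κ)^(2*q) ≤ Real.exp y := by
      refine le_trans ?_ hpow
      apply pow_le_pow_right₀ (by linarith) (by omega)
    set c : ℝ := 4 - (1 + κ)^(2*q+1) - (1 + κ)^(2*q) with hc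
    have hc2 : 2 - 2*y - y^2 - 0.4*y^3 ≤ c := by rw [hc]; nlinarith
    have hpoly : 1 + y/2 + y^2/5 ≤ 3.979 * (y * (2 - 2*y - y^2 - 0.4*y^3)) := by
      have h1 : 0 ≤ y - 0.2045 := by linarith
      have h2 : 0 ≤ 0.4755 - y := by linarith
      nlinarith [mul_nonneg h1 h2, mul_nonneg (mul_nonneg h1 h2) h1,
        mul_nonneg (mul_nonneg h1 h2) h2, mul_nonneg (mul_nonneg (mul_nonneg h1 h2) h1) h2,
        mul_nonneg (mul_nonneg (mul_nonneg h1 h2) h1) h1, sq_nonneg y]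
    have hy0 : 0 < y := by linarith
    have hc0 : 0 < c := by
      refine lt_of_lt_of_le ?_ hc2
      by_contra hneg
      push Not at hneg
      have : y * (2 - 2*y - y^2 - 0.4*y^3) ≤ 0 := mul_nonpos_of_nonneg_of_nonpos hy0.le hneg
      nlinarith
    have hgen := general2 (k := k) A hA ε κ q hε (by linarith) (by rw [hκ]; nlinarith) hcard
      hk0 hkn c hc hc0 hit
    have hmain : ((1 + κ)^(2*q+1) - 1) / ((2*(q:ℝ)+1)^2 * c) ≤ 3.979 * κ^2 := by
      rw [div_le_iff₀ (by positivity)]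
      have h1 : (1 + κ)^(2*q+1) - 1 ≤ y + y^2/2 + y^3/5 := by linarith
      have h2 : y + y^2/2 + y^3/5 ≤ 3.979 * (y^2 * (2 - 2*y - y^2 - 0.4*y^3)) := by
        nlinarith [mul_le_mul_of_nonneg_left hpoly hy0.le]
      have h3 : y^2 * (2 - 2*y - y^2 - 0.4*y^3) ≤ y^2 * c := by gcongr
      calc (1 + κ)^(2*q+1) - 1 ≤ 3.979 * (y^2 * c) := by linarith
        _ = 3.979 * κ^2 * ((2*(q:ℝ)+1)^2 * c) := by rw [hy]; ring
    have hnn : 0 ≤ ((1 + κ)^(2*q+1) - 1) / ((2*(q:ℝ)+1)^2 * c) := by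
      have : 1 ≤ (1 + κ)^(2*q+1) := one_le_pow₀ (by linarith)
      apply div_nonneg (by linarith) (by positivity)
    have hfin : Real.exp 1 * (((1 + κ)^(2*q+1) - 1) / ((2*(q:ℝ)+1)^2 * c)) * n
        ≤ 200 * ε^2 * n := by
      calc Real.exp 1 * (((1 + κ)^(2*q+1) - 1) / ((2*(q:ℝ)+1)^2 * c)) * n
          ≤ 2.7182818286 * (3.979 * κ^2) * n := by gcongr
        _ ≤ 200 * ε^2 * n := by
          rw [hκ]
          nlinarith [sq_nonneg ε, mul_nonneg (sq_nonneg ε) hn.le]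
    linarith

end Pool.Agent.Helper4
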